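import Pool.Agent.H16.TK.Stmt2
import Pool.Agent.H71.CC

/-! NFM: perfect families of pointed structures give perfect families of structures. -/

set_option autoImplicit false

open Set

namespace Pool.Agent.TK

lemma measurableSet_eq_eval {P K E : Type*} [MeasurableSpace P] [Countable K]
    [MeasurableSpace E] [MeasurableEq E] {e : P → E} {F : P → K → E} {k : P → K}
    (he : Measurable e) (hF : ∀ n, Measurable fun p => F p n)
    (hk : ∀ n, MeasurableSet {p | k p = n}) : MeasurableSet {p | e p = F p (k p)} := by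
  have : {p | e p = F p (k p)} = ⋃ n, {p | k p = n} ∩ {p | e p = F p n} := by
    ext p
    simp only [mem_setOf_eq, mem_iUnion, mem_inter_iff]
    constructor
    · intro h; exact ⟨k p, rfl, h⟩
    · rintro ⟨n, rfl, h⟩; exact h
  rw [this]
  exact MeasurableSet.iUnion (fun n => (hk n).inter (measurableSet_eq_fun he (hF n)))

lemma measurableSet_map_eq (l l' : List ℕ) : MeasurableSet {g : ℕ → ℕ | l.map g = l'} := by
  induction l generalizing l' with
  | nil => simp
  | cons u l ih =>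
    cases l' with
    | nil => simp
    | cons v l' =>
      have : {g : ℕ → ℕ | (u :: l).map g = v :: l'} = {g | g u = v} ∩ {g | l.map g = l'} := by
        ext g; simp
      rw [this]
      exact ((measurable_pi_apply u) (measurableSet_singleton v)).inter (ih l')

/-- the relation of isomorphism, given by pairs of inverse functions -/
lemma measurableSet_iso {C P : Type} [MeasurableSpace C] [MeasurableEq C] [MeasurableSpace P]
    {f f' : P → St C} (hf : Measurable f) (hf' : Measurable f') :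
    MeasurableSet {p : P × ((ℕ → ℕ) × (ℕ → ℕ)) | (∀ n, p.2.1 (p.2.2 n) = n) ∧
      (∀ n, p.2.2 (p.2.1 n) = n) ∧
      (∀ u v, (f p.1).1 u v = (f' p.1).1 (p.2.1 u) (p.2.1 v)) ∧
      ∀ l : List ℕ, (f p.1).2 l = (f' p.1).2 (l.map p.2.1)} := by
  have m1 : Measurable fun p : P × ((ℕ → ℕ) × (ℕ → ℕ)) => p.2.1 :=
    measurable_fst.comp measurable_snd
  have m2 : Measurable fun p : P × ((ℕ → ℕ) × (ℕ → ℕ)) => p.2.2 :=
    measurable_snd.comp measurable_snd
  have mf : Measurable fun p : P × ((ℕ → ℕ) × (ℕ → ℕ)) => f p.1 := hf.comp measurable_fst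
  have mf' : Measurable fun p : P × ((ℕ → ℕ) × (ℕ → ℕ)) => f' p.1 := hf'.comp measurable_fst
  have e1 : ∀ n k, MeasurableSet {p : P × ((ℕ → ℕ) × (ℕ → ℕ)) | p.2.1 n = k} := fun n k =>
    ((measurable_pi_apply n).comp m1) (measurableSet_singleton k)
  have e2 : ∀ n k, MeasurableSet {p : P × ((ℕ → ℕ) × (ℕ → ℕ)) | p.2.2 n = k} := fun n k =>
    ((measurable_pi_apply n).comp m2) (measurableSet_singleton k)
  have g1 : ∀ u v, Measurable fun p : P × ((ℕ → ℕ) × (ℕ → ℕ)) => (f p.1).1 u v := fun u v =>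
    (measurable_pi_apply v).comp ((measurable_pi_apply u).comp (measurable_fst.comp mf))
  have g1' : ∀ u v, Measurable fun p : P × ((ℕ → ℕ) × (ℕ → ℕ)) => (f' p.1).1 u v := fun u v =>
    (measurable_pi_apply v).comp ((measurable_pi_apply u).comp (measurable_fst.comp mf'))
  have g2 : ∀ l, Measurable fun p : P × ((ℕ → ℕ) × (ℕ → ℕ)) => (f p.1).2 l := fun l =>
    (measurable_pi_apply l).comp (measurable_snd.comp mf)
  have g2' : ∀ l, Measurable fun p : P × ((ℕ → ℕ) × (ℕ → ℕ)) => (f' p.1).2 l := fun l =>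
    (measurable_pi_apply l).comp (measurable_snd.comp mf')
  have S1 : MeasurableSet {p : P × ((ℕ → ℕ) × (ℕ → ℕ)) | ∀ n, p.2.1 (p.2.2 n) = n} := by
    rw [setOf_forall]
    refine MeasurableSet.iInter fun n => ?_
    have := measurableSet_eq_eval (P := P × ((ℕ → ℕ) × (ℕ → ℕ))) (e := fun _ => n)
      (F := fun p m => p.2.1 m) (k := fun p => p.2.2 n) measurable_const
      (fun m => (measurable_pi_apply m).comp m1) (fun m => e2 n m)
    simpa only [eq_comm] using this
  have S2 : MeasurableSet {p : P × ((ℕ → ℕ) × (ℕ → ℕ)) | ∀ n, p.2.2 (p.2.1 n) = n} := by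
    rw [setOf_forall]
    refine MeasurableSet.iInter fun n => ?_
    have := measurableSet_eq_eval (P := P × ((ℕ → ℕ) × (ℕ → ℕ))) (e := fun _ => n)
      (F := fun p m => p.2.2 m) (k := fun p => p.2.1 n) measurable_const
      (fun m => (measurable_pi_apply m).comp m2) (fun m => e1 n m)
    simpa only [eq_comm] using this
  have S3 : MeasurableSet {p : P × ((ℕ → ℕ) × (ℕ → ℕ)) |
      ∀ u v, (f p.1).1 u v = (f' p.1).1 (p.2.1 u) (p.2.1 v)} := by
    simp_rw [setOf_forall]
    refine MeasurableSet.iInter fun u => MeasurableSet.iInter fun v => ?_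
    refine measurableSet_eq_eval (P := P × ((ℕ → ℕ) × (ℕ → ℕ)))
      (e := fun p => (f p.1).1 u v) (K := ℕ × ℕ)
      (F := fun p m => (f' p.1).1 m.1 m.2) (k := fun p => (p.2.1 u, p.2.1 v)) (g1 u v)
      (fun m => g1' m.1 m.2) (fun m => ?_)
    have : {p : P × ((ℕ → ℕ) × (ℕ → ℕ)) | (p.2.1 u, p.2.1 v) = m} =
        {p | p.2.1 u = m.1} ∩ {p | p.2.1 v = m.2} := by
      ext p; simp [Prod.ext_iff]
    rw [this]
    exact (e1 u m.1).inter (e1 v m.2)
  have S4 : MeasurableSet {p : P × ((ℕ → ℕ) × (ℕ → ℕ)) |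
      ∀ l : List ℕ, (f p.1).2 l = (f' p.1).2 (l.map p.2.1)} := by
    rw [setOf_forall]
    refine MeasurableSet.iInter fun l => ?_
    exact measurableSet_eq_eval (P := P × ((ℕ → ℕ) × (ℕ → ℕ)))
      (e := fun p => (f p.1).2 l) (K := List ℕ)
      (F := fun p m => (f' p.1).2 m) (k := fun p => l.map p.2.1) (g2 l)
      (fun m => g2' m) (fun m => m1 (measurableSet_map_eq l m))
  exact S1.inter (S2.inter (S3.inter S4))

/-- isomorphism as a projection -/
lemma iso_iff {C : Type} {M N : St C} : Iso M N ↔ ∃ q : (ℕ → ℕ) × (ℕ → ℕ),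
    (∀ n, q.1 (q.2 n) = n) ∧ (∀ n, q.2 (q.1 n) = n) ∧
      (∀ u v, M.1 u v = N.1 (q.1 u) (q.1 v)) ∧ ∀ l : List ℕ, M.2 l = N.2 (l.map q.1) := by
  constructor
  · rintro ⟨h, -, h1, h2⟩
    exact ⟨(h, h.symm), fun n => h.apply_symm_apply n, fun n => h.symm_apply_apply n, h1, h2⟩
  · rintro ⟨q, h1, h2, h3, h4⟩
    exact ⟨⟨q.1, q.2, h2, h1⟩, by simp, h3, h4⟩

theorem pf_NFM {C : Type} [MeasurableSpace C] [StandardBorelSpace C] : NFM C := by
  classical
  intro X hX f a hf hfX
  by_contra hcon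
  push Not at hcon
  apply hX
  have hR : MeasureTheory.AnalyticSet
      {p : (ℕ → Bool) × (ℕ → Bool) | Iso (f p.1) (f p.2)} := by
    have h1 := Pool.Agent.H71.DST.analyticSet_proj
      (measurableSet_iso (P := (ℕ → Bool) × (ℕ → Bool)) (f := fun p => f p.1)
        (f' := fun p => f p.2) (hf.comp measurable_fst) (hf.comp measurable_snd))
    have h2 : {p : (ℕ → Bool) × (ℕ → Bool) | Iso (f p.1) (f p.2)} =
        {x | ∃ y : (ℕ → ℕ) × (ℕ → ℕ), (x, y) ∈
          {p : ((ℕ → Bool) × (ℕ → Bool)) × ((ℕ → ℕ) × (ℕ → ℕ)) | (∀ n, p.2.1 (p.2.2 n) = n) ∧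
      (∀ n, p.2.2 (p.2.1 n) = n) ∧
      (∀ u v, (f p.1.1).1 u v = (f p.1.2).1 (p.2.1 u) (p.2.1 v)) ∧
      ∀ l : List ℕ, (f p.1.1).2 l = (f p.1.2).2 (l.map p.2.1)}} := by
      ext p
      exact iso_iff
    rw [h2]
    exact h1
  have hsec : ∀ x, {y | (x, y) ∈ {p : (ℕ → Bool) × (ℕ → Bool) | Iso (f p.1) (f p.2)}}.Countable := by
    intro x
    have hch : ∀ y : {y // Iso (f x) (f y)}, ∃ h : Equiv.Perm ℕ, IsoH h (f x) (f y.1) := by
      rintro ⟨y, h, -, h1, h2⟩
      exact ⟨h, h1, h2⟩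
    choose h hh using hch
    have hinj : Function.Injective (fun y : {y // Iso (f x) (f y)} => a.map (h y).symm) := by
      intro y y' hyy
      by_contra hne
      have hne' : y.1 ≠ y'.1 := fun e => hne (Subtype.ext e)
      apply hcon y.1 y'.1 hne'
      refine ⟨(h y).symm.trans (h y'), ?_, ?_, ?_⟩
      · intro z hz
        have := List.map_inj_left.1 hyy z hz
        simp only [Equiv.trans_apply]
        rw [this]; simp
      · intro u v
        have e1 := (hh y).1 ((h y).symm u) ((h y).symm v)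
        have e2 := (hh y').1 ((h y).symm u) ((h y).symm v)
        simp only [Equiv.apply_symm_apply] at e1
        rw [← e1, e2]; rfl
      · intro l
        have e1 := (hh y).2 (l.map (h y).symm)
        have e2 := (hh y').2 (l.map (h y).symm)
        simp only [List.map_map] at e1 e2
        have e3 : l.map ((h y) ∘ (h y).symm) = l := by simp
        rw [e3] at e1
        rw [← e1, e2]; rfl
    have := hinj.countable
    exact Set.countable_coe_iff.1 this
  obtain ⟨g, hg, hginj, hg'⟩ :=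
    Pool.Agent.H71.DST.exists_perfect_of_countable_sections hR hsec
  exact ⟨f ∘ g, hf.comp hg.measurable, fun x => hfX _, fun x x' hne => hg' x x' hne⟩

end Pool.Agent.TK
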