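import Pool.Agent.H16.TK.BF

/-! Basic facts on connectivity and on isomorphisms of flaps. -/

set_option autoImplicit false

open Set

namespace Pool.Agent.TK

variable {C : Type} {c0 : C}

@[simp] lemma mem_ms {a : List ℕ} {x : ℕ} : x ∈ ms a ↔ x ∈ a := Iff.rfl

lemma ms_append (a b : List ℕ) : ms (a ++ b) = ms a ∪ ms b := by ext x; simp

lemma ms_finite (a : List ℕ) : (ms a).Finite := List.finite_toSet a

/-- every finite set is the set of elements of a duplicate-free list -/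
lemma exists_list {A : Set ℕ} (hA : A.Finite) :
    ∃ a : List ℕ, ms a = A ∧ a.Nodup ∧ a.length = A.ncard := by
  refine ⟨hA.toFinset.toList, ?_, Finset.nodup_toList _, ?_⟩
  · ext x; simp
  · rw [Finset.length_toList, Set.ncard_eq_toFinset_card A hA]

lemma mem_dg {k : List ℕ} {z : ℕ × ℕ} : z ∈ dg k ↔ z.1 = z.2 ∧ z.1 ∈ k := by
  simp only [dg, List.mem_map]
  constructor
  · rintro ⟨x, hx, rfl⟩; exact ⟨rfl, hx⟩
  · rintro ⟨h, h'⟩; exact ⟨z.1, h', by ext <;> simp [h]⟩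

lemma dg_eq_zip (k : List ℕ) : dg k = k.zip k := by
  induction k with
  | nil => rfl
  | cons a k ih => simp only [dg, List.map_cons, List.zip_cons_cons] at *; rw [ih]

lemma Conn.not_left {M : St C} {A : Set ℕ} {u v : ℕ} (h : Conn M A u v) : u ∉ A := h.1

lemma Conn.not_right {M : St C} {A : Set ℕ} {u v : ℕ} (h : Conn M A u v) : v ∉ A := by
  obtain ⟨h1, h2⟩ := h
  induction h2 with
  | refl => exact h1
  | tail _ h _ => exact h.2

lemma Conn.refl {M : St C} {A : Set ℕ} {u : ℕ} (h : u ∉ A) : Conn M A u u :=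
  ⟨h, Relation.ReflTransGen.refl⟩

lemma Conn.trans {M : St C} {A : Set ℕ} {u v x : ℕ} (h : Conn M A u v) (h' : Conn M A v x) :
    Conn M A u x := ⟨h.1, h.2.trans h'.2⟩

lemma Conn.step {M : St C} {A : Set ℕ} {u v x : ℕ} (h : Conn M A u v) (hE : M.1 v x = true)
    (hx : x ∉ A) : Conn M A u x := ⟨h.1, h.2.tail ⟨hE, hx⟩⟩

lemma Conn.single {M : St C} {A : Set ℕ} {u v : ℕ} (hu : u ∉ A) (hE : M.1 u v = true)
    (hv : v ∉ A) : Conn M A u v := (Conn.refl hu).step hE hv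

lemma Conn.symm {M : St C} (hM : Valid c0 M) {A : Set ℕ} {u v : ℕ} (h : Conn M A u v) :
    Conn M A v u := by
  obtain ⟨h1, h2⟩ := h
  induction h2 with
  | refl => exact Conn.refl h1
  | tail h hs ih =>
    rename_i b c
    exact (Conn.single hs.2 (by rw [hM.1]; exact hs.1) (Conn.not_right ⟨h1, h⟩)).trans ih

lemma Conn.mono {M : St C} {A B : Set ℕ} {u v : ℕ} (hAB : A ⊆ B) (h : Conn M B u v) :
    Conn M A u v :=
  ⟨fun hu => h.1 (hAB hu),
    Relation.ReflTransGen.mono (r := fun x y => M.1 x y = true ∧ y ∉ B)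
      (p := fun x y => M.1 x y = true ∧ y ∉ A)
      (fun _ _ hs => ⟨hs.1, fun hy => hs.2 (hAB hy)⟩) _ _ h.2⟩

lemma mem_cp {M : St C} {A : Set ℕ} {u v : ℕ} : u ∈ cp M A v ↔ Conn M A v u := Iff.rfl

lemma self_mem_cp {M : St C} {A : Set ℕ} {v : ℕ} (h : v ∉ A) : v ∈ cp M A v := Conn.refl h

lemma cp_eq {M : St C} (hM : Valid c0 M) {A : Set ℕ} {u v : ℕ} (h : u ∈ cp M A v) :
    cp M A u = cp M A v := by
  ext x
  exact ⟨fun hx => Conn.trans h hx, fun hx => (Conn.symm hM h).trans hx⟩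

lemma IsCp.eq_cp {M : St C} (hM : Valid c0 M) {A D : Set ℕ} (h : IsCp M A D) {v : ℕ}
    (hv : v ∈ D) : D = cp M A v := by
  obtain ⟨w, hw, rfl⟩ := h
  exact (cp_eq hM hv).symm

lemma isCp_cp {M : St C} {A : Set ℕ} {v : ℕ} (h : v ∉ A) : IsCp M A (cp M A v) := ⟨v, h, rfl⟩

lemma IsCp.nonempty {M : St C} {A D : Set ℕ} (h : IsCp M A D) : D.Nonempty := by
  obtain ⟨w, hw, rfl⟩ := h
  exact ⟨w, self_mem_cp hw⟩

lemma IsCp.disj {M : St C} {A D : Set ℕ} (h : IsCp M A D) : Disjoint D A := by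
  obtain ⟨w, hw, rfl⟩ := h
  rw [Set.disjoint_left]
  intro x hx
  exact Conn.not_right hx

/-- two components are equal or disjoint -/
lemma IsCp.eq_of_inter {M : St C} (hM : Valid c0 M) {A D D' : Set ℕ} (h : IsCp M A D)
    (h' : IsCp M A D') {x : ℕ} (hx : x ∈ D) (hx' : x ∈ D') : D = D' := by
  rw [h.eq_cp hM hx, h'.eq_cp hM hx']

lemma Cd.nonempty {M : St C} {D : Set ℕ} (h : Cd M D) : D.Nonempty := h.1

/-- a path inside a component -/
lemma IsCp.cd {M : St C} (hM : Valid c0 M) {A D : Set ℕ} (h : IsCp M A D) : Cd M D := by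
  refine ⟨h.nonempty, ?_⟩
  have key : ∀ u ∈ D, ∀ v, Conn M A u v → Conn M Dᶜ u v := by
    intro u hu v hv
    obtain ⟨h1, h2⟩ := hv
    induction h2 with
    | refl => exact Conn.refl (by simpa using hu)
    | tail hb hs ih =>
      rename_i b c
      refine ih.step hs.1 ?_
      have : c ∈ D := by
        rw [h.eq_cp hM hu]
        exact (Conn.step ⟨h1, hb⟩ hs.1 hs.2)
      simpa using this
  intro u hu v hv
  refine key u hu v ?_
  rw [h.eq_cp hM hu] at hv
  exact hv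

lemma IsCp.nb {M : St C} (hM : Valid c0 M) {A D : Set ℕ} (h : IsCp M A D) : Nb M D ⊆ A := by
  rintro u ⟨hu, s, hs, hE⟩
  by_contra hA
  apply hu
  rw [h.eq_cp hM hs]
  exact Conn.single (fun h' => Set.disjoint_left.1 h.disj hs h') (by rw [hM.1]; exact hE) hA

/-- a connected set avoiding `A` which meets a component is contained in it -/
lemma Cd.subset {M : St C} (hM : Valid c0 M) {A D S : Set ℕ} (hS : Cd M S) (hD : IsCp M A D)
    (hSA : Disjoint S A) {x : ℕ} (hx : x ∈ S) (hx' : x ∈ D) : S ⊆ D := by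
  intro v hv
  rw [hD.eq_cp hM hx']
  exact (hS.2 x hx v hv).mono (fun y hy hyS => Set.disjoint_left.1 hSA hyS hy)

/-- characterization of components -/
lemma isCp_iff {M : St C} (hM : Valid c0 M) {A D : Set ℕ} :
    IsCp M A D ↔ Cd M D ∧ Disjoint D A ∧ Nb M D ⊆ A := by
  constructor
  · intro h; exact ⟨h.cd hM, h.disj, h.nb hM⟩
  · rintro ⟨h1, h2, h3⟩
    obtain ⟨v, hv⟩ := h1.1
    have hvA : v ∉ A := Set.disjoint_left.1 h2 hv
    refine ⟨v, hvA, ?_⟩
    apply Set.Subset.antisymm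
    · exact h1.subset hM (isCp_cp hvA) h2 hv (self_mem_cp hvA)
    · intro u hu
      obtain ⟨_, hu2⟩ := (hu : Conn M A v u)
      induction hu2 with
      | refl => exact hv
      | tail hb hs ih =>
        rename_i b c
        by_contra hc
        exact hs.2 (h3 ⟨hc, b, ih, by rw [hM.1]; exact hs.1⟩)

/-- first exit from a set: a path from inside `D` to outside meets the neighbourhood of `D` -/
lemma Conn.exit {M : St C} (hM : Valid c0 M) {A D : Set ℕ} {u v : ℕ} (h : Conn M A u v)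
    (hu : u ∈ D) (hv : v ∉ D) : ∃ x, x ∈ Nb M D ∧ x ∉ A ∧ Conn M A u x ∧ Conn M A x v := by
  obtain ⟨h1, h2⟩ := h
  induction h2 with
  | refl => exact absurd hu hv
  | tail hb hs ih =>
    rename_i b c
    by_cases hbD : b ∈ D
    · have hc : Conn M A u c := Conn.step ⟨h1, hb⟩ hs.1 hs.2
      exact ⟨c, ⟨hv, b, hbD, by rw [hM.1]; exact hs.1⟩, hs.2, hc, Conn.refl hs.2⟩
    · obtain ⟨x, hx, hxA, hux, hxb⟩ := ih hbD
      exact ⟨x, hx, hxA, hux, hxb.step hs.1 hs.2⟩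

/-- sharper version: the part of the path before the exit stays in `D` -/
lemma Conn.exit' {M : St C} {A D : Set ℕ} {u v : ℕ} (h : Conn M A u v)
    (hu : u ∈ D) (hv : v ∉ D) : ∃ y x, y ∈ D ∧ x ∉ D ∧ x ∉ A ∧ M.1 y x = true ∧
      Conn M (A ∪ Dᶜ) u y ∧ Conn M A x v := by
  obtain ⟨h1, h2⟩ := h
  revert hu
  induction h2 using Relation.ReflTransGen.head_induction_on with
  | refl => intro hu; exact absurd hu hv
  | head hs hb ih =>
    rename_i a c
    intro hu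
    by_cases hc : c ∈ D
    · obtain ⟨y, x, hy, hx, hxA, hE, h3, h4⟩ := ih hs.2 hc
      refine ⟨y, x, hy, hx, hxA, hE, ?_, h4⟩
      have : Conn M (A ∪ Dᶜ) a c := Conn.single (by simp [h1, hu]) hs.1 (by simp [hs.2, hc])
      exact this.trans h3
    · exact ⟨a, c, hu, hc, hs.2, hs.1, Conn.refl (by simp [h1, hu]), ⟨hs.2, hb⟩⟩

lemma Cd.union {M : St C} {S T : Set ℕ} (hS : Cd M S) (hT : Cd M T) {x : ℕ} (hxS : x ∈ S)
    (hxT : x ∈ T) : Cd M (S ∪ T) := by
  have h1 : ∀ u v, Conn M Sᶜ u v → Conn M (S ∪ T)ᶜ u v := fun u v h =>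
    h.mono (by intro y hy hyS; exact hy (Or.inl hyS))
  have h2 : ∀ u v, Conn M Tᶜ u v → Conn M (S ∪ T)ᶜ u v := fun u v h =>
    h.mono (by intro y hy hyS; exact hy (Or.inr hyS))
  refine ⟨⟨x, Or.inl hxS⟩, ?_⟩
  rintro u (hu | hu) v (hv | hv)
  · exact h1 _ _ (hS.2 u hu v hv)
  · exact (h1 _ _ (hS.2 u hu x hxS)).trans (h2 _ _ (hT.2 x hxT v hv))
  · exact (h2 _ _ (hT.2 u hu x hxT)).trans (h1 _ _ (hS.2 x hxS v hv))
  · exact h2 _ _ (hT.2 u hu v hv)

/-- directed unions of connected sets are connected -/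
lemma Cd.directed {M : St C} {ι : Type*} [Nonempty ι] {S : ι → Set ℕ} (h : ∀ i, Cd M (S i))
    (hd : ∀ i j, ∃ k, S i ⊆ S k ∧ S j ⊆ S k) : Cd M (⋃ i, S i) := by
  obtain ⟨i0⟩ := ‹Nonempty ι›
  obtain ⟨x, hx⟩ := (h i0).1
  refine ⟨⟨x, mem_iUnion.2 ⟨i0, hx⟩⟩, ?_⟩
  intro u hu v hv
  obtain ⟨i, hu⟩ := mem_iUnion.1 hu
  obtain ⟨j, hv⟩ := mem_iUnion.1 hv
  obtain ⟨k, hi, hj⟩ := hd i j
  exact ((h k).2 u (hi hu) v (hj hv)).mono (by
    intro y hy hyS; exact hy (mem_iUnion.2 ⟨k, hyS⟩))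

lemma Nb_mono_of_disj {M : St C} {S T : Set ℕ} (h : S ⊆ T) : Nb M S ⊆ Nb M T ∪ T := by
  rintro u ⟨hu, s, hs, hE⟩
  by_cases huT : u ∈ T
  · exact Or.inr huT
  · exact Or.inl ⟨huT, s, h hs, hE⟩

/-- a component of a smaller set of removed points, if the neighbours stay removed -/
lemma IsCp.change {M : St C} (hM : Valid c0 M) {A B D : Set ℕ} (h : IsCp M A D)
    (hN : Nb M D ⊆ B) (hd : Disjoint D B) : IsCp M B D :=
  (isCp_iff hM).2 ⟨h.cd hM, hd, hN⟩

/-- components inside components -/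
lemma cp_subset {M : St C} (hM : Valid c0 M) {A B D : Set ℕ} (hD : IsCp M A D) (hAB : A ⊆ B)
    {v : ℕ} (hv : v ∈ D) : cp M B v ⊆ D := by
  intro u hu
  rw [hD.eq_cp hM hv]
  exact Conn.mono hAB hu

section FI
variable {M M' M'' : St C} {a a' a'' : List ℕ} {D D' D'' : Set ℕ} {h h' : ℕ → ℕ}

lemma FIh.pi (H : FIh h M a D M' a' D') : PI M M' (a.zip a') := by
  have := H.2.2 [] (by simp)
  simpa using this

lemma FI.refl (M : St C) (a : List ℕ) (D : Set ℕ) : FI M a D M a D := by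
  refine ⟨id, rfl, Set.bijOn_id D, ?_⟩
  intro x hx
  apply PI_diag
  intro z hz
  simp only [List.mem_append, List.mem_map] at hz
  rcases hz with hz | ⟨w, hw, rfl⟩
  · rw [← dg_eq_zip] at hz; exact (mem_dg.1 hz).1
  · rfl

lemma FI.length (H : FI M a D M' a' D') : a.length = a'.length := H.choose_spec.1

/-- the position of an isomorphism -/
lemma FIh.bf (H : FIh h M a D M' a' D') (r : Rk) : ∀ x : List ℕ, (∀ z ∈ x, z ∈ D) →
    bf M M' D D' r (a.zip a' ++ x.map (fun z => (z, h z))) := by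
  induction r with
  | zero => intro x hx; exact H.2.2 x hx
  | sup f ih =>
    intro x hx n
    have key : ∀ c ∈ D, TK.bf M M' D D' (f n) ((c, h c) :: (a.zip a' ++ x.map (fun z => (z, h z)))) := by
      intro c hc
      refine bf_mono (ih n (c :: x) (by
        intro z hz; rcases List.mem_cons.1 hz with rfl | hz; exacts [hc, hx z hz])) ?_
      intro z hz
      simp only [List.mem_cons, List.mem_append, List.map_cons] at hz ⊢
      tauto
    refine ⟨ih n x hx, ?_, ?_⟩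
    · intro c hc; exact ⟨h c, H.2.1.mapsTo hc, key c hc⟩
    · intro d hd
      obtain ⟨c, hc, rfl⟩ := H.2.1.surjOn hd
      exact ⟨c, hc, key c hc⟩

lemma FI.fb (H : FI M a D M' a' D') (r : Rk) : FB r M a D M' a' D' := by
  obtain ⟨h, H⟩ := H
  refine ⟨H.1, ?_⟩
  simpa using H.bf r [] (by simp)

lemma FIh.symm (H : FIh h M a D M' a' D') : ∃ g, FIh g M' a' D' M a D ∧
    (∀ x ∈ D, g (h x) = x) ∧ ∀ y ∈ D', h (g y) = y := by
  classical
  obtain ⟨H1, H2, H3⟩ := H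
  set g := Function.invFunOn h D with hg
  have hgl : ∀ x ∈ D, g (h x) = x := fun x hx => H2.injOn.leftInvOn_invFunOn hx
  have hgr : ∀ y ∈ D', h (g y) = y := fun y hy => Function.invFunOn_eq (H2.surjOn hy)
  have hgm : ∀ y ∈ D', g y ∈ D := fun y hy => Function.invFunOn_mem (H2.surjOn hy)
  refine ⟨g, ⟨H1.symm, ?_, ?_⟩, hgl, hgr⟩
  · refine ⟨hgm, ?_, ?_⟩
    · intro y hy y' hy' hyy
      rw [← hgr y hy, ← hgr y' hy']
      exact congrArg h hyy
    · intro x hx
      exact ⟨h x, H2.mapsTo hx, hgl x hx⟩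
  · intro y hy
    have := (H3 (y.map g) (by
      intro z hz; simp only [List.mem_map] at hz; obtain ⟨w, hw, rfl⟩ := hz; exact hgm w (hy w hw))).symm
    rw [List.map_append, swap_zip, List.map_map, List.map_map] at this
    refine this.mono ?_
    intro z hz
    simp only [List.mem_append, List.mem_map] at hz ⊢
    rcases hz with hz | ⟨w, hw, rfl⟩
    · exact Or.inl hz
    · exact Or.inr ⟨w, hw, by simp [hgr w (hy w hw)]⟩

lemma FI.symm (H : FI M a D M' a' D') : FI M' a' D' M a D := by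
  obtain ⟨h, H⟩ := H
  obtain ⟨g, hg, _⟩ := H.symm
  exact ⟨g, hg⟩

lemma FIh.trans (H : FIh h M a D M' a' D') (H' : FIh h' M' a' D' M'' a'' D'') :
    FIh (h' ∘ h) M a D M'' a'' D'' := by
  refine ⟨H.1.trans H'.1, H'.2.1.comp H.2.1, ?_⟩
  intro x hx
  have h1 := H.2.2 x hx
  have h2 := H'.2.2 (x.map h) (by
    intro z hz; simp only [List.mem_map] at hz; obtain ⟨w, hw, rfl⟩ := hz; exact H.2.1.mapsTo (hx w hw))
  have e1 : ∀ (a a' : List ℕ) (x : List ℕ) (g : ℕ → ℕ), a.length = a'.length →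
      a.zip a' ++ x.map (fun z => (z, g z)) = (a ++ x).zip (a' ++ x.map g) := by
    intro a a' x g hl
    rw [List.zip_append hl]
    congr 1
    induction x with
    | nil => rfl
    | cons b x ih => simp only [List.map_cons, List.zip_cons_cons, ih]
  have e2 : (a' ++ x.map h).length = (a'' ++ (x.map h).map h').length := by
    simp [H'.1]
  have e3 : (a ++ x).length = (a' ++ x.map h).length := by simp [H.1]
  rw [e1 _ _ _ _ H.1] at h1
  rw [e1 _ _ _ _ H'.1] at h2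
  have h3 := bf_trans (r := Rk.zero) (U := ∅) (U' := ∅) (U'' := ∅) e3 e2 h1 h2
  have e4 : a.zip a'' ++ x.map (fun z => (z, (h' ∘ h) z)) = (a ++ x).zip (a'' ++ (x.map h).map h') := by
    rw [e1 _ _ _ _ (H.1.trans H'.1), List.map_map]
  rw [e4]
  exact h3

lemma FI.trans (H : FI M a D M' a' D') (H' : FI M' a' D' M'' a'' D'') : FI M a D M'' a'' D'' := by
  obtain ⟨h, H⟩ := H
  obtain ⟨h', H'⟩ := H'
  exact ⟨_, H.trans H'⟩

end FI

lemma FB.refl (r : Rk) (M : St C) (a : List ℕ) (D : Set ℕ) : FB r M a D M a D :=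
  (FI.refl M a D).fb r

lemma FB.symm {r : Rk} {M M' : St C} {a a' : List ℕ} {D D' : Set ℕ}
    (H : FB r M a D M' a' D') : FB r M' a' D' M a D := by
  refine ⟨H.1.symm, ?_⟩
  have := bf_symm H.2
  rwa [swap_zip] at this

lemma FB.trans {r : Rk} {M M' M'' : St C} {a a' a'' : List ℕ} {D D' D'' : Set ℕ}
    (H : FB r M a D M' a' D') (H' : FB r M' a' D' M'' a'' D'') : FB r M a D M'' a'' D'' :=
  ⟨H.1.trans H'.1, bf_trans H.1 H'.1 H.2 H'.2⟩

lemma FB.mono {r s : Rk} (h : RLe C r s) {M M' : St C} {a a' : List ℕ} {D D' : Set ℕ}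
    (H : FB s M a D M' a' D') : FB r M a D M' a' D' := ⟨H.1, h _ _ _ _ _ H.2⟩

end Pool.Agent.TK
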