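import Pool.Agent.H16.TK.Stmt2

/-! CNT: there are only countably many small flaps in members of `X`. -/

set_option autoImplicit false

open Set

namespace Pool.Agent.TK

theorem pf_CNT {C : Type} {c0 : C} (hREL : REL C) : CNT C c0 := by
  classical
  intro X hX hTC r
  obtain ⟨T', hT', hT'X, hrep⟩ := hTC (W r)
  have key : ∀ t : St C × List ℕ, ∃ S : Set (Fl C), S.Countable ∧
      (∀ u ∈ S, Valid c0 u.1 ∧ u.2.2 ∉ u.2.1) ∧
      (small c0 r t.1 t.2.tail (cp t.1 (ms t.2.tail) (t.2.headD 0)) →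
        ∀ (N : St C) (b : List ℕ) (v : ℕ), Valid c0 N → v ∉ b →
          FB r t.1 t.2.tail (cp t.1 (ms t.2.tail) (t.2.headD 0)) N b (cp N (ms b) v) →
          ∃ u ∈ S, FI N b (cp N (ms b) v) u.1 u.2.1 u.set) := by
    intro t
    by_cases h : small c0 r t.1 t.2.tail (cp t.1 (ms t.2.tail) (t.2.headD 0))
    · obtain ⟨S, hS, hv, h'⟩ := h
      exact ⟨S, hS, hv, fun _ => h'⟩
    · exact ⟨∅, countable_empty, by simp, fun h' => absurd h' h⟩
  choose F hF1 hF2 hF3 using key
  refine ⟨⋃ t ∈ T', F t, hT'.biUnion (fun t _ => hF1 t), ?_, ?_⟩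
  · intro u hu
    simp only [mem_iUnion] at hu
    obtain ⟨t, ht, hu⟩ := hu
    exact hF2 t u hu
  · intro M hM a v hva hsm
    obtain ⟨t, ht, htl, hbf⟩ := hrep M hM (v :: a)
    obtain ⟨N, l⟩ := t
    cases l with
    | nil => simp at htl
    | cons v0 a0 =>
      simp only [List.length_cons, add_left_inj] at htl
      simp only [List.zip_cons_cons] at hbf
      have hbf' := hREL M N univ univ r _ a a0 v v0 hbf htl.symm
        (fun z hz => List.mem_cons_of_mem _ hz) List.mem_cons_self hva (subset_univ _)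
        (subset_univ _)
      have hFB : FB r M a (cp M (ms a) v) N a0 (cp N (ms a0) v0) :=
        ⟨htl.symm, bf_mono hbf' (fun z hz => List.mem_cons_of_mem _ hz)⟩
      have hsm' := hsm.fb hFB
      obtain ⟨u, hu, hFI⟩ := hF3 (N, v0 :: a0) hsm' M a v (hX M hM) hva hFB.symm
      exact ⟨u, mem_iUnion₂.2 ⟨_, ht, hu⟩, hFI⟩

end Pool.Agent.TK
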