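import Pool.Agent.H16.TK.Defs

/-! Basic facts on back-and-forth equivalence. -/

set_option autoImplicit false

open Set

namespace Pool.Agent.TK

variable {C : Type}

lemma PI.mono {M M' : St C} {p q : List (ℕ × ℕ)} (h : PI M M' p) (hq : ∀ z ∈ q, z ∈ p) :
    PI M M' q :=
  ⟨fun z hz w hw => h.1 z (hq z hz) w (hq w hw), fun z hz w hw => h.2.1 z (hq z hz) w (hq w hw),
    fun q' hq' => h.2.2 q' (fun z hz => hq z (hq' z hz))⟩

lemma bf_mono {M M' : St C} {U U' : Set ℕ} {r : Rk} : ∀ {p q : List (ℕ × ℕ)},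
    bf M M' U U' r p → (∀ z ∈ q, z ∈ p) → bf M M' U U' r q := by
  induction r with
  | zero => intro p q h hq; exact PI.mono h hq
  | sup f ih =>
    intro p q h hq n
    obtain ⟨h1, h2, h3⟩ := h n
    refine ⟨ih n h1 hq, ?_, ?_⟩
    · intro a ha
      obtain ⟨b, hb, h⟩ := h2 a ha
      exact ⟨b, hb, ih n h (by simp only [List.mem_cons]; rintro z (h | h); exacts [Or.inl h, Or.inr (hq z h)])⟩
    · intro b hb
      obtain ⟨a, ha, h⟩ := h3 b hb
      exact ⟨a, ha, ih n h (by simp only [List.mem_cons]; rintro z (h | h); exacts [Or.inl h, Or.inr (hq z h)])⟩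

lemma bf_PI {M M' : St C} {U U' : Set ℕ} {r : Rk} : ∀ {p : List (ℕ × ℕ)},
    bf M M' U U' r p → PI M M' p := by
  induction r with
  | zero => intro p h; exact h
  | sup f ih => intro p h; exact ih 0 (h 0).1

lemma PI.symm {M M' : St C} {p : List (ℕ × ℕ)} (h : PI M M' p) :
    PI M' M (p.map Prod.swap) := by
  refine ⟨?_, ?_, ?_⟩
  · intro z hz w hw
    simp only [List.mem_map] at hz hw
    obtain ⟨z, hz, rfl⟩ := hz
    obtain ⟨w, hw, rfl⟩ := hw
    exact (h.1 z hz w hw).symm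
  · intro z hz w hw
    simp only [List.mem_map] at hz hw
    obtain ⟨z, hz, rfl⟩ := hz
    obtain ⟨w, hw, rfl⟩ := hw
    exact (h.2.1 z hz w hw).symm
  · intro q hq
    have h1 := h.2.2 (q.map Prod.swap) (by
      intro z hz
      simp only [List.mem_map] at hz
      obtain ⟨z, hz, rfl⟩ := hz
      have := hq z hz
      simp only [List.mem_map] at this
      obtain ⟨w, hw, rfl⟩ := this
      simpa using hw)
    have e1 : (q.map Prod.swap).map Prod.fst = q.map Prod.snd := by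
      rw [List.map_map]; rfl
    have e2 : (q.map Prod.swap).map Prod.snd = q.map Prod.fst := by
      rw [List.map_map]; rfl
    rw [e1, e2] at h1
    exact h1.symm

lemma bf_symm {M M' : St C} {U U' : Set ℕ} {r : Rk} : ∀ {p : List (ℕ × ℕ)},
    bf M M' U U' r p → bf M' M U' U r (p.map Prod.swap) := by
  induction r with
  | zero => intro p h; exact PI.symm h
  | sup f ih =>
    intro p h n
    obtain ⟨h1, h2, h3⟩ := h n
    refine ⟨ih n h1, ?_, ?_⟩
    · intro a ha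
      obtain ⟨b, hb, h⟩ := h3 a ha
      exact ⟨b, hb, ih n h⟩
    · intro b hb
      obtain ⟨a, ha, h⟩ := h2 b hb
      exact ⟨a, ha, ih n h⟩

lemma PI.trans {M M' M'' : St C} {t : List (ℕ × ℕ × ℕ)}
    (h : PI M M' (t.map (fun z => (z.1, z.2.1)))) (h' : PI M' M'' (t.map (fun z => (z.2.1, z.2.2)))) :
    PI M M'' (t.map (fun z => (z.1, z.2.2))) := by
  refine ⟨?_, ?_, ?_⟩
  · intro z hz w hw
    simp only [List.mem_map] at hz hw
    obtain ⟨z, hz, rfl⟩ := hz
    obtain ⟨w, hw, rfl⟩ := hw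
    exact (h.1 (z.1, z.2.1) (List.mem_map.2 ⟨z, hz, rfl⟩) (w.1, w.2.1) (List.mem_map.2 ⟨w, hw, rfl⟩)).trans
      (h'.1 (z.2.1, z.2.2) (List.mem_map.2 ⟨z, hz, rfl⟩) (w.2.1, w.2.2) (List.mem_map.2 ⟨w, hw, rfl⟩))
  · intro z hz w hw
    simp only [List.mem_map] at hz hw
    obtain ⟨z, hz, rfl⟩ := hz
    obtain ⟨w, hw, rfl⟩ := hw
    exact (h.2.1 (z.1, z.2.1) (List.mem_map.2 ⟨z, hz, rfl⟩) (w.1, w.2.1) (List.mem_map.2 ⟨w, hw, rfl⟩)).trans
      (h'.2.1 (z.2.1, z.2.2) (List.mem_map.2 ⟨z, hz, rfl⟩) (w.2.1, w.2.2) (List.mem_map.2 ⟨w, hw, rfl⟩))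
  · intro q hq
    have : ∃ s : List (ℕ × ℕ × ℕ), (∀ z ∈ s, z ∈ t) ∧ s.map (fun z => (z.1, z.2.2)) = q := by
      clear h h'
      induction q with
      | nil => exact ⟨[], by simp, rfl⟩
      | cons a q ih =>
        obtain ⟨s, hs, hs'⟩ := ih (fun z hz => hq z (List.mem_cons_of_mem _ hz))
        have ha := hq a List.mem_cons_self
        simp only [List.mem_map] at ha
        obtain ⟨z, hz, rfl⟩ := ha
        refine ⟨z :: s, ?_, ?_⟩
        · intro w hw
          rcases List.mem_cons.1 hw with rfl | hw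
          exacts [hz, hs w hw]
        · simp [hs']
    obtain ⟨s, hs, rfl⟩ := this
    have h1 := h.2.2 (s.map (fun z => (z.1, z.2.1))) (by
      intro z hz; simp only [List.mem_map] at hz ⊢; obtain ⟨w, hw, rfl⟩ := hz; exact ⟨w, hs w hw, rfl⟩)
    have h2 := h'.2.2 (s.map (fun z => (z.2.1, z.2.2))) (by
      intro z hz; simp only [List.mem_map] at hz ⊢; obtain ⟨w, hw, rfl⟩ := hz; exact ⟨w, hs w hw, rfl⟩)
    simp only [List.map_map] at h1 h2 ⊢
    exact h1.trans h2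

lemma bf_trans' {M M' M'' : St C} {U U' U'' : Set ℕ} {r : Rk} : ∀ {t : List (ℕ × ℕ × ℕ)},
    bf M M' U U' r (t.map (fun z => (z.1, z.2.1))) →
    bf M' M'' U' U'' r (t.map (fun z => (z.2.1, z.2.2))) →
    bf M M'' U U'' r (t.map (fun z => (z.1, z.2.2))) := by
  induction r with
  | zero => intro t h h'; exact PI.trans h h'
  | sup f ih =>
    intro t h h' n
    obtain ⟨h1, h2, h3⟩ := h n
    obtain ⟨h1', h2', h3'⟩ := h' n
    refine ⟨ih n h1 h1', ?_, ?_⟩
    · intro a ha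
      obtain ⟨b, hb, h⟩ := h2 a ha
      obtain ⟨c, hc, h'⟩ := h2' b hb
      exact ⟨c, hc, ih n (t := (a, b, c) :: t) h h'⟩
    · intro c hc
      obtain ⟨b, hb, h'⟩ := h3' c hc
      obtain ⟨a, ha, h⟩ := h3 b hb
      exact ⟨a, ha, ih n (t := (a, b, c) :: t) h h'⟩

/-- transitivity for zipped lists -/
lemma bf_trans {M M' M'' : St C} {U U' U'' : Set ℕ} {r : Rk} {x y z : List ℕ}
    (hxy : x.length = y.length) (hyz : y.length = z.length)
    (h : bf M M' U U' r (x.zip y)) (h' : bf M' M'' U' U'' r (y.zip z)) :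
    bf M M'' U U'' r (x.zip z) := by
  have key : ∀ (x y z : List ℕ), x.length = y.length → y.length = z.length →
      (x.zip (y.zip z)).map (fun t => (t.1, t.2.1)) = x.zip y ∧
      (x.zip (y.zip z)).map (fun t => (t.2.1, t.2.2)) = y.zip z ∧
      (x.zip (y.zip z)).map (fun t => (t.1, t.2.2)) = x.zip z := by
    intro x
    induction x with
    | nil => intro y z h h'; cases y with
      | nil => simp
      | cons => simp at h
    | cons a x ih =>
      intro y z h h'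
      cases y with
      | nil => simp at h
      | cons b y =>
        cases z with
        | nil => simp at h'
        | cons c z =>
          obtain ⟨e1, e2, e3⟩ := ih y z (by simpa using h) (by simpa using h')
          simp [e1, e2, e3]
  obtain ⟨e1, e2, e3⟩ := key x y z hxy hyz
  rw [← e1] at h
  rw [← e2] at h'
  rw [← e3]
  exact bf_trans' h h'

lemma PI_diag (M : St C) {p : List (ℕ × ℕ)} (hp : ∀ z ∈ p, z.1 = z.2) : PI M M p := by
  refine ⟨?_, ?_, ?_⟩
  · intro z hz w hw; rw [hp z hz, hp w hw]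
  · intro z hz w hw; rw [hp z hz, hp w hw]
  · intro q hq
    rw [List.map_congr_left (fun z hz => hp z (hq z hz))]

lemma bf_diag (M : St C) (U : Set ℕ) (r : Rk) : ∀ {p : List (ℕ × ℕ)},
    (∀ z ∈ p, z.1 = z.2) → bf M M U U r p := by
  induction r with
  | zero => intro p hp; exact PI_diag M hp
  | sup f ih =>
    intro p hp n
    refine ⟨ih n hp, ?_, ?_⟩
    · intro a ha
      exact ⟨a, ha, ih n (by intro z hz; rcases List.mem_cons.1 hz with rfl | hz; exacts [rfl, hp z hz])⟩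
    · intro a ha
      exact ⟨a, ha, ih n (by intro z hz; rcases List.mem_cons.1 hz with rfl | hz; exacts [rfl, hp z hz])⟩

lemma RLe.refl (r : Rk) : RLe C r r := fun _ _ _ _ _ h => h

lemma RLe.trans {r s t : Rk} (h : RLe C r s) (h' : RLe C s t) : RLe C r t :=
  fun M M' U U' p hp => h M M' U U' p (h' M M' U U' p hp)

lemma RLe.sup (f : ℕ → Rk) (n : ℕ) : RLe C (f n) (Rk.sup f) := fun _ _ _ _ _ h => (h n).1

lemma RLe.suc (r : Rk) : RLe C r (Rk.suc r) := fun _ _ _ _ _ h => (h 0).1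

lemma RLe.sucN (n : ℕ) (r : Rk) : RLe C r (Rk.sucN n r) := by
  induction n with
  | zero => exact RLe.refl r
  | succ n ih => exact ih.trans (RLe.suc _)

lemma RLe.lim' (n : ℕ) (r : Rk) : RLe C (Rk.sucN n r) (Rk.lim r) :=
  RLe.sup (fun n => Rk.sucN n r) n

lemma RLe.lim (r : Rk) : RLe C r (Rk.lim r) := RLe.lim' 0 r

lemma RLe.sup_mono {f g : ℕ → Rk} (h : ∀ n, RLe C (f n) (g n)) : RLe C (Rk.sup f) (Rk.sup g) := by
  intro M M' U U' p hp n
  obtain ⟨h1, h2, h3⟩ := hp n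
  refine ⟨h n _ _ _ _ _ h1, ?_, ?_⟩
  · intro a ha; obtain ⟨b, hb, h'⟩ := h2 a ha; exact ⟨b, hb, h n _ _ _ _ _ h'⟩
  · intro a ha; obtain ⟨b, hb, h'⟩ := h3 a ha; exact ⟨b, hb, h n _ _ _ _ _ h'⟩

lemma RLe.suc_mono {r s : Rk} (h : RLe C r s) : RLe C (Rk.suc r) (Rk.suc s) :=
  RLe.sup_mono (fun _ => h)

lemma RLe.sucN_mono {r s : Rk} (h : RLe C r s) (n : ℕ) : RLe C (Rk.sucN n r) (Rk.sucN n s) := by
  induction n with
  | zero => exact h
  | succ n ih => exact RLe.suc_mono ih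

lemma RLe.lim_mono {r s : Rk} (h : RLe C r s) : RLe C (Rk.lim r) (Rk.lim s) :=
  RLe.sup_mono (fun n => RLe.sucN_mono h n)

lemma RLe.sh_left (s r : Rk) : RLe C s (Sh s r) := by
  induction r with
  | zero => exact RLe.refl _
  | sup f ih => exact (ih 0).trans (RLe.sup (fun n => Sh s (f n)) 0)

lemma RLe.sh_right (s r : Rk) : RLe C r (Sh s r) := by
  induction r with
  | zero => intro M M' U U' p h; exact bf_PI h
  | sup f ih => exact RLe.sup_mono ih

lemma RLe.om_W (r : Rk) : RLe C om (W r) := RLe.sh_left om r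

lemma RLe.W_right (r : Rk) : RLe C r (W r) := RLe.sh_right om r

/-- passing to subsets which are recognised at rank `s` -/
lemma bf_restrict {M M' : St C} {D D' U U' : Set ℕ} {s r : Rk} (hU : U ⊆ D) (hU' : U' ⊆ D')
    {p0 : List (ℕ × ℕ)}
    (hs : ∀ x ∈ D, ∀ x' ∈ D', bf M M' D D' s ((x, x') :: p0) → (x ∈ U ↔ x' ∈ U')) :
    ∀ {p : List (ℕ × ℕ)}, (∀ z ∈ p0, z ∈ p) → bf M M' D D' (Sh s r) p → bf M M' U U' r p := by
  induction r with
  | zero => intro p hp h; exact bf_PI h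
  | sup f ih =>
    intro p hp h n
    obtain ⟨h1, h2, h3⟩ := h n
    refine ⟨ih n hp h1, ?_, ?_⟩
    · intro a ha
      obtain ⟨b, hb, h⟩ := h2 a (hU ha)
      have : b ∈ U' := (hs a (hU ha) b hb (bf_mono (RLe.sh_left (C := C) s (f n) _ _ _ _ _ h) (by
        intro z hz; simp only [List.mem_cons] at hz ⊢; rcases hz with hz | hz
        exacts [Or.inl hz, Or.inr (hp z hz)]))).1 ha
      exact ⟨b, this, ih n (fun z hz => List.mem_cons_of_mem _ (hp z hz)) h⟩
    · intro b hb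
      obtain ⟨a, ha, h⟩ := h3 b (hU' hb)
      have : a ∈ U := (hs a ha b (hU' hb) (bf_mono (RLe.sh_left (C := C) s (f n) _ _ _ _ _ h) (by
        intro z hz; simp only [List.mem_cons] at hz ⊢; rcases hz with hz | hz
        exacts [Or.inl hz, Or.inr (hp z hz)]))).2 hb
      exact ⟨a, this, ih n (fun z hz => List.mem_cons_of_mem _ (hp z hz)) h⟩

lemma ext_many {M M' : St C} {U U' : Set ℕ} {r : Rk} : ∀ (x : List ℕ) {n : ℕ}
    {p : List (ℕ × ℕ)}, x.length = n → bf M M' U U' (Rk.sucN n r) p → (∀ z ∈ x, z ∈ U) →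
      ∃ y : List ℕ, y.length = n ∧ (∀ z ∈ y, z ∈ U') ∧ bf M M' U U' r (x.zip y ++ p) := by
  intro x
  induction x with
  | nil => intro n p hn h hx; subst hn; exact ⟨[], rfl, by simp, h⟩
  | cons a x ih =>
    intro n p hn h hx
    subst hn
    obtain ⟨_, h2, _⟩ := h 0
    obtain ⟨b, hb, h'⟩ := h2 a (hx a List.mem_cons_self)
    obtain ⟨y, hy, hyU, h''⟩ := ih (n := x.length) rfl h' (fun z hz => hx z (List.mem_cons_of_mem _ hz))
    refine ⟨b :: y, by simp [hy], ?_, bf_mono h'' ?_⟩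
    · intro z hz; rcases List.mem_cons.1 hz with rfl | hz; exacts [hb, hyU z hz]
    · intro z hz
      simp only [List.zip_cons_cons, List.cons_append, List.mem_cons, List.mem_append] at hz ⊢
      rcases hz with h | h | h
      exacts [Or.inr (Or.inl h), Or.inl h, Or.inr (Or.inr h)]

lemma swap_zip (x y : List ℕ) : (x.zip y).map Prod.swap = y.zip x := by
  rw [List.zip_swap]

lemma ext_many' {M M' : St C} {U U' : Set ℕ} {r : Rk} (y : List ℕ) {n : ℕ}
    {p : List (ℕ × ℕ)} (hn : y.length = n) (h : bf M M' U U' (Rk.sucN n r) p)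
    (hy : ∀ z ∈ y, z ∈ U') :
      ∃ x : List ℕ, x.length = n ∧ (∀ z ∈ x, z ∈ U) ∧ bf M M' U U' r (x.zip y ++ p) := by
  obtain ⟨x, hx, hxU, h'⟩ := ext_many y hn (bf_symm h) hy
  refine ⟨x, hx, hxU, ?_⟩
  have := bf_symm h'
  rw [List.map_append, swap_zip, List.map_map] at this
  simpa using this

lemma lim_ext {M M' : St C} {U U' : Set ℕ} {r : Rk} {p : List (ℕ × ℕ)}
    (h : bf M M' U U' (Rk.lim r) p) (x : List ℕ) (hx : ∀ z ∈ x, z ∈ U) :
      ∃ y : List ℕ, y.length = x.length ∧ (∀ z ∈ y, z ∈ U') ∧ bf M M' U U' r (x.zip y ++ p) :=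
  ext_many x rfl (RLe.lim' x.length r _ _ _ _ _ h) hx

lemma lim_ext' {M M' : St C} {U U' : Set ℕ} {r : Rk} {p : List (ℕ × ℕ)}
    (h : bf M M' U U' (Rk.lim r) p) (y : List ℕ) (hy : ∀ z ∈ y, z ∈ U') :
      ∃ x : List ℕ, x.length = y.length ∧ (∀ z ∈ x, z ∈ U) ∧ bf M M' U U' r (x.zip y ++ p) :=
  ext_many' y rfl (RLe.lim' y.length r _ _ _ _ _ h) hy

lemma sucN_add (m n : ℕ) (r : Rk) : Rk.sucN m (Rk.sucN n r) = Rk.sucN (m + n) r := by
  induction m with
  | zero => simp [Rk.sucN]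
  | succ m ih => rw [Nat.succ_add]; simp only [Rk.sucN, ih]

/-- `m` moves are still possible after a finite extension -/
lemma lim_ext_suc {M M' : St C} {U U' : Set ℕ} {r : Rk} {p : List (ℕ × ℕ)}
    (h : bf M M' U U' (Rk.lim r) p) (m : ℕ) (x : List ℕ) (hx : ∀ z ∈ x, z ∈ U) :
      ∃ y : List ℕ, y.length = x.length ∧ (∀ z ∈ y, z ∈ U') ∧
        bf M M' U U' (Rk.sucN m r) (x.zip y ++ p) := by
  have h' := RLe.lim' (C := C) (x.length + m) r _ _ _ _ _ h
  rw [← sucN_add] at h'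
  exact ext_many x rfl h' hx

lemma lim_ext_suc' {M M' : St C} {U U' : Set ℕ} {r : Rk} {p : List (ℕ × ℕ)}
    (h : bf M M' U U' (Rk.lim r) p) (m : ℕ) (y : List ℕ) (hy : ∀ z ∈ y, z ∈ U') :
      ∃ x : List ℕ, x.length = y.length ∧ (∀ z ∈ x, z ∈ U) ∧
        bf M M' U U' (Rk.sucN m r) (x.zip y ++ p) := by
  have h' := RLe.lim' (C := C) (y.length + m) r _ _ _ _ _ h
  rw [← sucN_add] at h'
  exact ext_many' y rfl h' hy

end Pool.Agent.TK
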