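import Pool.Agent.H16.TK.Stmt2

/-! CORE: the combinatorial theorem. -/

set_option autoImplicit false

open Set

namespace Pool.Agent.TK

/-- an isomorphism of flaps with full underlying sets is an isomorphism of structures -/
lemma FI.iso {C : Type} {M N : St C} (h : FI M [] univ N [] univ) : Iso M N := by
  obtain ⟨h, H1, H2, H3⟩ := h
  have hb : Function.Bijective h := bijOn_univ.1 H2
  refine ⟨Equiv.ofBijective h hb, by simp, ?_, ?_⟩
  · intro u v
    have := (H3 [u, v] (by simp)).2.1 (u, h u) (by simp) (v, h v) (by simp)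
    simpa using this
  · intro l
    have := (H3 l (by simp)).2.2 (l.map (fun z => (z, h z))) (by simp)
    simpa [List.map_map, Function.comp_def] using this

theorem pf_CORE {C : Type} [MeasurableSpace C] {c0 : C} (hTAM : TAM C c0) (hRTA : RTA C c0)
    (hGLU : GLU C c0) : CORE C c0 := by
  classical
  intro b X hyp
  obtain ⟨d, hd⟩ := hRTA b X hyp
  obtain ⟨T', hT', hT'X, hrep⟩ := hyp.tc (Rk.lim (W d))
  refine ⟨Prod.fst '' T', hT'.image _, ?_⟩
  intro M hM hni
  obtain ⟨t, ht, htl, hbf⟩ := hrep M hM []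
  refine ⟨t.1, ⟨t, ht, rfl⟩, ?_⟩
  have h1 : FI M [] univ t.1 [] univ := by
    apply hGLU d M t.1 [] [] univ univ (hyp.val M hM) (hyp.val _ (hT'X t ht)) rfl
    · intro v _; exact ⟨by simp, subset_univ _⟩
    · intro v _; exact ⟨by simp, subset_univ _⟩
    · simpa using hbf
    · intro v _
      have hcp : IsCp M (ms []) (cp M (ms []) v) := isCp_cp (by simp)
      exact hd M hM [] _ hcp (hTAM b X hyp M hM hni [] _ hcp)
  exact h1.iso

end Pool.Agent.TK
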