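import Pool.Agent.H16.TK.Stmt2

/-! EGB: the levels are isomorphic. -/

set_option autoImplicit false

open Set

namespace Pool.Agent.TK

/-- components inside the difference of two consecutive sides are level components -/
lemma lev_of_mem {C : Type} {c0 : C} {M : St C} (hM : Valid c0 M) {w : Set ℕ → Set ℕ}
    {P : Set ℕ} {A S : ℕ → Set ℕ} (hNFA : NFA C c0) (h : CSeq M w P A S) (n : ℕ) {v : ℕ}
    (hv : v ∈ w (A n) \ (S n ∪ w (A (n + 1)))) :
    v ∉ A (n + 1) ∧ cp M (A (n + 1)) v ⊆ w (A n) \ (S n ∪ w (A (n + 1))) ∧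
      Lev M w A n (cp M (A (n + 1)) v) := by
  obtain ⟨h1, -, -⟩ := hNFA M hM w P A S h
  have hcn : IsCp M (A n) (w (A n)) := h.dir.1 _ (h1 n).1
  have hcn1 : IsCp M (A (n + 1)) (w (A (n + 1))) := h.dir.1 _ (h1 (n + 1)).1
  have hvA : v ∉ A (n + 1) := by
    rw [h.succ n]
    rintro (h' | h')
    · exact Set.disjoint_left.1 hcn.disj hv.1 h'
    · exact hv.2 (Or.inl h')
  have hsub : cp M (A (n + 1)) v ⊆ w (A n) :=
    cp_subset hM hcn (by rw [h.succ n]; exact subset_union_left) hv.1
  have hne : cp M (A (n + 1)) v ≠ w (A (n + 1)) := by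
    intro e
    exact hv.2 (Or.inr (e ▸ self_mem_cp hvA))
  refine ⟨hvA, ?_, ⟨v, hvA, rfl⟩, hsub, hne⟩
  intro x hx
  refine ⟨hsub hx, ?_⟩
  rintro (hxS | hxw)
  · have : x ∈ A (n + 1) := by rw [h.succ n]; exact Or.inr hxS
    exact Conn.not_right hx this
  · exact hne ((isCp_cp hvA).eq_of_inter hM hcn1 hx hxw)

lemma cc_length {q t : ℕ → List ℕ} (h : ∀ n, (t n).length = (q n).length) (n : ℕ) :
    (cc q n).length = (cc t n).length := by
  induction n with
  | zero => rfl
  | succ n ih => simp [cc, ih, h n]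

lemma ms_cc {a : List ℕ} {A S : ℕ → Set ℕ} {q : ℕ → List ℕ} (hA0 : A 0 = ms a)
    (hq : ∀ n, ms (q n) = S n) (hs : ∀ n, A (n + 1) = A n ∪ S n) (n : ℕ) :
    A n = ms (a ++ cc q n) := by
  induction n with
  | zero => simp [cc, hA0]
  | succ n ih => rw [hs n, ih, ← hq n, ← ms_append]; simp [cc]

theorem pf_EGB {C : Type} {c0 : C} (hGLU : GLU C c0) (hNFA : NFA C c0) : EGB C c0 := by
  classical
  intro s ρ d hs hρ M N w w' a a' D D' hM hN hwD hw'D hl hTP P P' A S q t hcs hA0 hq ht hcs' hbf
    hrig n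
  have hAn : ∀ n, A n = ms (a ++ cc q n) := ms_cc hA0 hq hcs.succ
  have hcl := cc_length ht
  obtain ⟨h1, -, -⟩ := hNFA M hM w P A S hcs
  obtain ⟨h1', -, -⟩ := hNFA N hN w' P' _ _ hcs'
  have hdis : ∀ n, Disjoint (w (A n)) (A n) := fun n => (hcs.dir.1 _ (h1 n).1).disj
  have hdis' : ∀ n, Disjoint (w' (ms (a' ++ cc t n))) (ms (a' ++ cc t n)) :=
    fun n => (hcs'.dir.1 _ (h1' n).1).disj
  -- the sides are contained in `D` and `D'`
  have hwsub : ∀ n, w (A n) ⊆ D := by
    intro n
    induction n with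
    | zero => rw [hA0, hwD]
    | succ n ih => exact (h1 n).2.2.2.2.2.2.1.trans ih
  have hwsub' : ∀ n, w' (ms (a' ++ cc t n)) ⊆ D' := by
    intro n
    induction n with
    | zero => simp [cc, hw'D]
    | succ n ih => exact (h1' n).2.2.2.2.2.2.1.trans ih
  have hccD : ∀ n, ∀ z ∈ cc q n, z ∈ D := by
    intro n
    induction n with
    | zero => simp [cc]
    | succ n ih =>
      intro z hz
      simp only [cc, List.mem_append] at hz
      rcases hz with hz | hz
      · exact ih z hz
      · have : z ∈ S n := by rw [← hq n]; exact hz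
        exact hwsub n ((h1 n).2.2.2.2.1 this)
  have hccD' : ∀ n, ∀ z ∈ cc t n, z ∈ D' := by
    intro n
    induction n with
    | zero => simp [cc]
    | succ n ih =>
      intro z hz
      simp only [cc, List.mem_append] at hz
      rcases hz with hz | hz
      · exact ih z hz
      · exact hwsub' n ((h1' n).2.2.2.2.1 hz)
  have hsubz : ∀ z ∈ (cc q n).zip (cc t n), z ∈ (cc q (n + 1)).zip (cc t (n + 1)) := by
    intro z hz
    simp only [cc]
    rw [List.zip_append (hcl n)]
    exact List.mem_append_left _ hz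
  have hsubz' : ∀ z ∈ (q n).zip (t n), z ∈ (cc q (n + 1)).zip (cc t (n + 1)) := by
    intro z hz
    simp only [cc]
    rw [List.zip_append (hcl n)]
    exact List.mem_append_right _ hz
  -- pairs of equal length lists
  have zip_left : ∀ {x y : List ℕ}, x.length = y.length → ∀ u ∈ x, ∃ v ∈ y, (u, v) ∈ x.zip y := by
    intro x
    induction x with
    | nil => intro y _ u hu; simp at hu
    | cons c x ih =>
      intro y hxy u hu
      cases y with
      | nil => simp at hxy
      | cons c' y =>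
        rcases List.mem_cons.1 hu with rfl | hu
        · exact ⟨c', by simp, by simp⟩
        · obtain ⟨v, hv, h⟩ := ih (by simpa using hxy) u hu
          exact ⟨v, List.mem_cons_of_mem _ hv, by simp [h]⟩
  have zip_right : ∀ {x y : List ℕ}, x.length = y.length → ∀ v ∈ y, ∃ u ∈ x, (u, v) ∈ x.zip y := by
    intro x
    induction x with
    | nil => intro y h v hv; cases y with
      | nil => simp at hv
      | cons => simp at h
    | cons c x ih =>
      intro y hxy v hv
      cases y with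
      | nil => simp at hxy
      | cons c' y =>
        rcases List.mem_cons.1 hv with rfl | hv
        · exact ⟨c, by simp, by simp⟩
        · obtain ⟨u, hu, h⟩ := ih (by simpa using hxy) v hv
          exact ⟨u, List.mem_cons_of_mem _ hu, by simp [h]⟩
  have hPIlist : ∀ (x y : List ℕ) (u v : ℕ) (p : List (ℕ × ℕ)), x.length = y.length →
      PI M N p → (∀ z ∈ x.zip y, z ∈ p) → (u, v) ∈ p → (u ∈ x ↔ v ∈ y) := by
    intro x y u v p hxy hp hz huv
    constructor
    · intro hu
      obtain ⟨v', hv', h⟩ := zip_left hxy u hu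
      have := (hp.1 _ huv _ (hz _ h)).1 rfl
      simp only at this
      rw [this]; exact hv'
    · intro hv
      obtain ⟨u', hu', h⟩ := zip_right hxy v hv
      have := (hp.1 _ huv _ (hz _ h)).2 rfl
      simp only at this
      rw [this]; exact hu'
  have hbfn := hbf (n + 1)
  have hrec : ∀ x ∈ D, ∀ x' ∈ D',
      bf M N D D' s ((x, x') :: ((cc q (n + 1)).zip (cc t (n + 1)) ++ a.zip a')) →
      (x ∈ w (A n) \ (S n ∪ w (A (n + 1))) ↔ x' ∈ w' (ms (a' ++ cc t n)) \
        (ms (t n) ∪ w' (ms (a' ++ cc t (n + 1))))) := by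
    intro x hx x' hx' hb
    have hpi := bf_PI hb
    have hk : x ∈ cc q (n + 1) ↔ x' ∈ cc t (n + 1) :=
      hPIlist _ _ x x' _ (hcl (n + 1)) hpi
        (fun z hz => List.mem_cons_of_mem _ (List.mem_append_left _ hz)) List.mem_cons_self
    have hk0 : x ∈ cc q n ↔ x' ∈ cc t n :=
      hPIlist _ _ x x' _ (hcl n) hpi
        (fun z hz => List.mem_cons_of_mem _ (List.mem_append_left _ (hsubz z hz)))
        List.mem_cons_self
    have hk1 : x ∈ q n ↔ x' ∈ t n :=
      hPIlist _ _ x x' _ (ht n).symm hpi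
        (fun z hz => List.mem_cons_of_mem _ (List.mem_append_left _ (hsubz' z hz)))
        List.mem_cons_self
    by_cases hxc : x ∈ cc q (n + 1)
    · have h2 : x ∉ w (A n) \ (S n ∪ w (A (n + 1))) := by
        rintro ⟨h3, h4⟩
        simp only [cc, List.mem_append] at hxc
        rcases hxc with h5 | h5
        · exact Set.disjoint_left.1 (hdis n) h3 (by rw [hAn n]; simp [h5])
        · exact h4 (Or.inl (by rw [← hq n]; exact h5))
      have hx'c := hk.1 hxc
      have h2' : x' ∉ w' (ms (a' ++ cc t n)) \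
          (ms (t n) ∪ w' (ms (a' ++ cc t (n + 1)))) := by
        rintro ⟨h3, h4⟩
        simp only [cc, List.mem_append] at hx'c
        rcases hx'c with h5 | h5
        · exact Set.disjoint_left.1 (hdis' n) h3 (by simp [h5])
        · exact h4 (Or.inl h5)
      exact ⟨fun h => absurd h h2, fun h => absurd h h2'⟩
    · have hx'c : x' ∉ cc t (n + 1) := fun h => hxc (hk.2 h)
      have hxc0 : x ∉ cc q n := fun h => hxc (by simp [cc, h])
      have hxc1 : x ∉ q n := fun h => hxc (by simp [cc, h])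
      have hx'c0 : x' ∉ cc t n := fun h => hxc0 (hk0.2 h)
      have hx'c1 : x' ∉ t n := fun h => hxc1 (hk1.2 h)
      have hT1 := hTP (cc q (n + 1)) (cc t (n + 1)) x x' (hcl _) (hccD _) (hccD' _) hx hx' hxc
        hx'c hb
      have hT0 := hTP (cc q n) (cc t n) x x' (hcl _) (hccD _) (hccD' _) hx hx' hxc0 hx'c0
        (bf_mono hb (by
          intro z hz
          simp only [List.mem_cons, List.mem_append] at hz ⊢
          rcases hz with hz | hz | hz
          · exact Or.inl hz
          · exact Or.inr (Or.inl (hsubz z hz))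
          · exact Or.inr (Or.inr hz)))
      rw [← hAn] at hT1 hT0
      have hSn : x ∉ S n := by rw [← hq n]; exact hxc1
      simp only [mem_sdiff, mem_union, not_or, hT0, hT1, hSn, mem_ms, hx'c1]
  have hU : w (A n) \ (S n ∪ w (A (n + 1))) ⊆ D := sdiff_subset.trans (hwsub n)
  have hU' : w' (ms (a' ++ cc t n)) \ (ms (t n) ∪ w' (ms (a' ++ cc t (n + 1)))) ⊆ D' :=
    sdiff_subset.trans (hwsub' n)
  have hb2 := bf_restrict hU hU' hrec (fun z hz => hz) (hρ _ _ _ _ _ hbfn)
  have e1 : (a ++ cc q (n + 1)).length = (a' ++ cc t (n + 1)).length := by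
    simp [hl, hcl]
  refine hGLU d M N (a ++ cc q (n + 1)) (a' ++ cc t (n + 1)) _ _ hM hN e1 ?_ ?_ ?_ ?_
  · intro v hv
    obtain ⟨h2, h3, h4⟩ := lev_of_mem hM hNFA hcs n hv
    rw [← hAn (n + 1)]
    exact ⟨by rw [hAn (n + 1)] at h2; exact h2, h3⟩
  · intro v hv
    obtain ⟨h2, h3, h4⟩ := lev_of_mem hN hNFA hcs' n hv
    exact ⟨h2, h3⟩
  · refine bf_mono hb2 ?_
    intro z hz
    rw [List.zip_append hl] at hz
    simp only [List.mem_append] at hz ⊢
    exact hz.symm
  · intro v hv
    obtain ⟨h2, h3, h4⟩ := lev_of_mem hM hNFA hcs n hv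
    rw [hAn (n + 1)] at h2
    have h5 := hrig n _ h4 (a ++ cc q (n + 1)) (by rw [hAn (n + 1)]; exact isCp_cp h2)
    rw [hAn (n + 1)] at h5
    exact h5

end Pool.Agent.TK
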