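import Pool.Agent.H16.TK.Stmt2
import Pool.Agent.H16.TK.EGB

/-! EGC: gluing the levels. -/

set_option autoImplicit false

open Set

namespace Pool.Agent.TK

/-- the vertices between two consecutive sides -/
def Lv (w : Set ℕ → Set ℕ) (A S : ℕ → Set ℕ) (n : ℕ) : Set ℕ :=
  w (A n) \ (S n ∪ w (A (n + 1)))

section
variable {C : Type} {c0 : C} {M : St C} {w : Set ℕ → Set ℕ} {P : Set ℕ} {A S : ℕ → Set ℕ}

lemma CSeq.A_mono (h : CSeq M w P A S) {m n : ℕ} (hmn : m ≤ n) : A m ⊆ A n := by
  induction n, hmn using Nat.le_induction with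
  | base => exact subset_rfl
  | succ n _ ih => rw [h.succ n]; exact ih.trans subset_union_left

lemma CSeq.w_anti (hM : Valid c0 M) (hNFA : NFA C c0) (h : CSeq M w P A S) {m n : ℕ}
    (hmn : m ≤ n) : w (A n) ⊆ w (A m) := by
  obtain ⟨h1, -, -⟩ := hNFA M hM w P A S h
  induction n, hmn using Nat.le_induction with
  | base => exact subset_rfl
  | succ n _ ih => exact (h1 n).2.2.2.2.2.2.1.trans ih

lemma Lv_A (hM : Valid c0 M) (hNFA : NFA C c0) (h : CSeq M w P A S) (m n : ℕ) :
    Disjoint (Lv w A S m) (A n) := by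
  obtain ⟨h1, -, -⟩ := hNFA M hM w P A S h
  rw [Set.disjoint_left]
  intro u hu
  have h0 : ∀ n, m + 1 ≤ n → u ∉ A n := by
    intro n hn
    induction n, hn using Nat.le_induction with
    | base =>
      rw [h.succ m]
      rintro (h' | h')
      · exact Set.disjoint_left.1 (h.dir.1 _ (h1 m).1).disj hu.1 h'
      · exact hu.2 (Or.inl h')
    | succ n hn ih =>
      rw [h.succ n]
      rintro (h' | h')
      · exact ih h'
      · exact hu.2 (Or.inr (CSeq.w_anti hM hNFA h hn ((h1 n).2.2.2.2.1 h')))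
  by_cases hn : m + 1 ≤ n
  · exact h0 n hn
  · intro h'
    exact h0 (m + 1) le_rfl (h.A_mono (by omega) h')

lemma Lv_Lv (hM : Valid c0 M) (hNFA : NFA C c0) (h : CSeq M w P A S) {m n : ℕ} {u : ℕ}
    (hm : u ∈ Lv w A S m) (hn : u ∈ Lv w A S n) : m = n := by
  rcases lt_trichotomy m n with hmn | hmn | hmn
  · exact absurd (Or.inr (CSeq.w_anti hM hNFA h (Nat.succ_le_of_lt hmn) hn.1)) hm.2
  · exact hmn
  · exact absurd (Or.inr (CSeq.w_anti hM hNFA h (Nat.succ_le_of_lt hmn) hm.1)) hn.2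

/-- a clique lives on one level -/
lemma clique_level (hM : Valid c0 M) (hNFA : NFA C c0) (h : CSeq M w P A S)
    {f : ℕ × ℕ → ℕ} {B Λ : ℕ → Set (ℕ × ℕ)} (hB : ∀ m z, z ∈ B m → f z ∈ A m)
    (hB' : ∀ m n z, z ∈ B m → f z ∈ A n → z ∈ B n) (hΛ : ∀ n z, z ∈ Λ n → f z ∈ Lv w A S n)
    {l : List (ℕ × ℕ)} (hl : ∀ z ∈ l, (∃ m, z ∈ B m) ∨ ∃ n, z ∈ Λ n)
    (hc : ∀ z ∈ l, ∀ z' ∈ l, f z ≠ f z' → M.1 (f z) (f z') = true) :
    ∃ n, ∀ z ∈ l, z ∈ B (n + 1) ∨ z ∈ Λ n := by
  by_cases H : ∃ z ∈ l, ∃ n, z ∈ Λ n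
  · obtain ⟨z0, hz0, n, hn⟩ := H
    refine ⟨n, fun z hz => ?_⟩
    have h0 := hΛ n z0 hn
    obtain ⟨h1, h2, -⟩ := lev_of_mem hM hNFA h n h0
    have key : f z ∈ A (n + 1) ∨ f z ∈ Lv w A S n := by
      by_cases hzz : f z0 = f z
      · right; rw [← hzz]; exact h0
      · by_cases hA : f z ∈ A (n + 1)
        · exact Or.inl hA
        · exact Or.inr (h2 (Conn.single h1 (hc z0 hz0 z hz hzz) hA))
    rcases hl z hz with ⟨m, hm⟩ | ⟨m, hm⟩
    · rcases key with hk | hk
      · exact Or.inl (hB' m _ z hm hk)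
      · exact absurd (hB m z hm) (Set.disjoint_left.1 (Lv_A hM hNFA h n m) hk)
    · rcases key with hk | hk
      · exact absurd hk (Set.disjoint_left.1 (Lv_A hM hNFA h m (n + 1)) (hΛ m z hm))
      · have := Lv_Lv hM hNFA h hk (hΛ m z hm)
        subst this
        exact Or.inr hm
  · have hl' : ∀ z ∈ l, ∃ m, z ∈ B m := by
      intro z hz
      rcases hl z hz with h' | h'
      · exact h'
      · exact absurd ⟨z, hz, h'⟩ H
    have : ∃ N, ∀ z ∈ l, z ∈ B N := by
      clear hl hc H
      induction l with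
      | nil => exact ⟨0, by simp⟩
      | cons c l ih =>
        obtain ⟨N, hN⟩ := ih (fun z hz => hl' z (List.mem_cons_of_mem _ hz))
        obtain ⟨m, hm⟩ := hl' c List.mem_cons_self
        refine ⟨max N m, ?_⟩
        intro z hz
        rcases List.mem_cons.1 hz with rfl | hz
        · exact hB' m _ _ hm (h.A_mono (le_max_right _ _) (hB m _ hm))
        · exact hB' N _ _ (hN z hz) (h.A_mono (le_max_left _ _) (hB N _ (hN z hz)))
    obtain ⟨N, hN⟩ := this
    exact ⟨N, fun z hz => Or.inl (hB' N _ z (hN z hz)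
      (h.A_mono (Nat.le_succ N) (hB N z (hN z hz))))⟩

/-- exhaustion of the first side -/
lemma exhaust (hM : Valid c0 M) (hNFA : NFA C c0) (h : CSeq M w P A S) {u : ℕ}
    (hu : u ∈ w (A 0)) : ∃ n, u ∈ S n ∨ u ∈ Lv w A S n := by
  classical
  obtain ⟨-, -, h3⟩ := hNFA M hM w P A S h
  have hex := h3 u
  set k := Nat.find hex with hk
  have hk1 : u ∉ w (A k) := Nat.find_spec hex
  have hk0 : k ≠ 0 := by intro e; rw [e] at hk1; exact hk1 hu
  obtain ⟨n, hn⟩ := Nat.exists_eq_succ_of_ne_zero hk0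
  have hn1 : u ∈ w (A n) := by
    by_contra hc
    have : k ≤ n := Nat.find_min' hex hc
    omega
  refine ⟨n, ?_⟩
  by_cases hS : u ∈ S n
  · exact Or.inl hS
  · refine Or.inr ⟨hn1, ?_⟩
    rintro (h' | h')
    · exact hS h'
    · rw [hn] at hk1; exact hk1 h'

end

lemma zip_left {x y : List ℕ} (h : x.length = y.length) {u : ℕ} (hu : u ∈ x) :
    ∃ v ∈ y, (u, v) ∈ x.zip y := by
  induction x generalizing y with
  | nil => simp at hu
  | cons c x ih =>
    cases y with
    | nil => simp at h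
    | cons c' y =>
      rcases List.mem_cons.1 hu with rfl | hu
      · exact ⟨c', by simp, by simp⟩
      · obtain ⟨v, hv, h⟩ := ih (by simpa using h) hu
        exact ⟨v, List.mem_cons_of_mem _ hv, by simp [h]⟩

lemma zip_right {x y : List ℕ} (h : x.length = y.length) {v : ℕ} (hv : v ∈ y) :
    ∃ u ∈ x, (u, v) ∈ x.zip y := by
  induction x generalizing y with
  | nil =>
    cases y with
    | nil => simp at hv
    | cons => simp at h
  | cons c x ih =>
    cases y with
    | nil => simp at h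
    | cons c' y =>
      rcases List.mem_cons.1 hv with rfl | hv
      · exact ⟨c, by simp, by simp⟩
      · obtain ⟨u, hu, h⟩ := ih (by simpa using h) hv
        exact ⟨u, List.mem_cons_of_mem _ hu, by simp [h]⟩

theorem pf_EGC {C : Type} {c0 : C} (hNFA : NFA C c0) : EGC C c0 := by
  classical
  intro M N w w' a a' D D' P P' A S q t hM hN hwD hw'D hl hcs hA0 hq ht hcs' hpi hFI
  have hAn : ∀ n, A n = ms (a ++ cc q n) := ms_cc hA0 hq hcs.succ
  have hcl := cc_length ht
  choose g hg using hFI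
  set A' : ℕ → Set ℕ := fun n => ms (a' ++ cc t n) with hA'
  set S' : ℕ → Set ℕ := fun n => ms (t n) with hS'
  have hg' : ∀ n, FIh (g n) M (a ++ cc q (n + 1)) (Lv w A S n) N (a' ++ cc t (n + 1))
      (Lv w' A' S' n) := hg
  set B : ℕ → Set (ℕ × ℕ) := fun m => {z | z ∈ (cc q m).zip (cc t m) ++ a.zip a'} with hBdef
  set Λ : ℕ → Set (ℕ × ℕ) := fun n => {z | z.1 ∈ Lv w A S n ∧ z.2 = g n z.1} with hΛdef
  have hBmono : ∀ m n, m ≤ n → B m ⊆ B n := by
    intro m n hmn
    induction n, hmn using Nat.le_induction with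
    | base => exact subset_rfl
    | succ n _ ih =>
      refine ih.trans ?_
      intro z hz
      simp only [hBdef, List.mem_append, mem_ofPred_eq] at hz ⊢
      rcases hz with hz | hz
      · left
        simp only [cc]
        rw [List.zip_append (hcl n)]
        exact List.mem_append_left _ hz
      · exact Or.inr hz
  have hBl : ∀ m z, z ∈ B m → z.1 ∈ A m := by
    intro m z hz
    rw [hAn m]
    simp only [hBdef, List.mem_append, mem_ofPred_eq] at hz
    simp only [mem_ms, List.mem_append]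
    rcases hz with hz | hz
    · exact Or.inr (List.of_mem_zip hz).1
    · exact Or.inl (List.of_mem_zip hz).1
  have hBr : ∀ m z, z ∈ B m → z.2 ∈ A' m := by
    intro m z hz
    simp only [hBdef, List.mem_append, mem_ofPred_eq] at hz
    simp only [hA', mem_ms, List.mem_append]
    rcases hz with hz | hz
    · exact Or.inr (List.of_mem_zip hz).2
    · exact Or.inl (List.of_mem_zip hz).2
  have hexl : ∀ n u, u ∈ A n → ∃ v, (u, v) ∈ B n := by
    intro n u hu
    rw [hAn n] at hu
    simp only [mem_ms, List.mem_append] at hu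
    rcases hu with hu | hu
    · obtain ⟨v, -, hv⟩ := zip_left hl hu
      exact ⟨v, List.mem_append_right _ hv⟩
    · obtain ⟨v, -, hv⟩ := zip_left (hcl n) hu
      exact ⟨v, List.mem_append_left _ hv⟩
  have hexr : ∀ n v, v ∈ A' n → ∃ u, (u, v) ∈ B n := by
    intro n v hv
    simp only [hA', mem_ms, List.mem_append] at hv
    rcases hv with hv | hv
    · obtain ⟨u, -, hu⟩ := zip_right hl hv
      exact ⟨u, List.mem_append_right _ hu⟩
    · obtain ⟨u, -, hu⟩ := zip_right (hcl n) hv
      exact ⟨u, List.mem_append_left _ hu⟩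
  have hBl' : ∀ m n z, z ∈ B m → z.1 ∈ A n → z ∈ B n := by
    intro m n z hz hzn
    obtain ⟨v, hv⟩ := hexl n z.1 hzn
    have h1 := hBmono m (max m n) (le_max_left _ _) hz
    have h2 := hBmono n (max m n) (le_max_right _ _) hv
    have h3 := ((hpi (max m n)).1 z h1 _ h2).1 rfl
    have : z = (z.1, v) := Prod.ext rfl h3
    rw [this]; exact hv
  have hBr' : ∀ m n z, z ∈ B m → z.2 ∈ A' n → z ∈ B n := by
    intro m n z hz hzn
    obtain ⟨u, hu⟩ := hexr n z.2 hzn
    have h1 := hBmono m (max m n) (le_max_left _ _) hz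
    have h2 := hBmono n (max m n) (le_max_right _ _) hu
    have h3 := ((hpi (max m n)).1 z h1 _ h2).2 rfl
    have : z = (u, z.2) := Prod.ext h3 rfl
    rw [this]; exact hu
  have hΛl : ∀ n z, z ∈ Λ n → z.1 ∈ Lv w A S n := fun n z hz => hz.1
  have hΛr : ∀ n z, z ∈ Λ n → z.2 ∈ Lv w' A' S' n := by
    intro n z hz
    rw [hz.2]
    exact (hg' n).2.1.mapsTo hz.1
  -- one level
  have hone : ∀ n (l : List (ℕ × ℕ)), (∀ z ∈ l, z ∈ B (n + 1) ∨ z ∈ Λ n) → PI M N l := by
    intro n l hl'
    have h1 := (hg' n).2.2 ((l.filter (fun z => z.1 ∈ Lv w A S n)).map Prod.fst) (by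
      intro z hz
      simp only [List.mem_map, List.mem_filter, decide_eq_true_eq] at hz
      obtain ⟨y, ⟨-, hy⟩, rfl⟩ := hz
      exact hy)
    refine h1.mono ?_
    intro z hz
    rcases hl' z hz with hz' | hz'
    · apply List.mem_append_left
      rw [List.zip_append hl]
      simp only [hBdef, List.mem_append, mem_ofPred_eq] at hz'
      simp only [List.mem_append]
      exact hz'.symm
    · apply List.mem_append_right
      simp only [List.mem_map, List.mem_filter, decide_eq_true_eq]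
      refine ⟨z.1, ⟨z, ⟨hz, hz'.1⟩, rfl⟩, ?_⟩
      rw [← hz'.2]
  -- all levels
  have hall : ∀ l : List (ℕ × ℕ), (∀ z ∈ l, (∃ m, z ∈ B m) ∨ ∃ n, z ∈ Λ n) → PI M N l := by
    have hcl1 : ∀ l : List (ℕ × ℕ), (∀ z ∈ l, (∃ m, z ∈ B m) ∨ ∃ n, z ∈ Λ n) →
        (∀ z ∈ l, ∀ z' ∈ l, z.1 ≠ z'.1 → M.1 z.1 z'.1 = true) → PI M N l := by
      intro l hl' hc
      obtain ⟨n, hn⟩ := clique_level hM hNFA hcs (f := Prod.fst) hBl hBl' hΛl hl' hc
      exact hone n l hn
    have hcl2 : ∀ l : List (ℕ × ℕ), (∀ z ∈ l, (∃ m, z ∈ B m) ∨ ∃ n, z ∈ Λ n) →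
        (∀ z ∈ l, ∀ z' ∈ l, z.2 ≠ z'.2 → N.1 z.2 z'.2 = true) → PI M N l := by
      intro l hl' hc
      obtain ⟨n, hn⟩ := clique_level hN hNFA hcs' (f := Prod.snd) hBr hBr' hΛr hl' hc
      exact hone n l hn
    intro l hl'
    have hpair : ∀ z ∈ l, ∀ z' ∈ l, ∀ y ∈ [z, z'], (∃ m, y ∈ B m) ∨ ∃ n, y ∈ Λ n := by
      intro z hz z' hz' y hy
      simp only [List.mem_cons, List.not_mem_nil, or_false] at hy
      rcases hy with rfl | rfl
      exacts [hl' _ hz, hl' _ hz']
    refine ⟨?_, ?_, ?_⟩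
    · intro z hz z' hz'
      constructor
      · intro e
        have := hcl1 [z, z'] (hpair z hz z' hz') (by
          intro y hy y' hy' hne
          simp only [List.mem_cons, List.not_mem_nil, or_false] at hy hy'
          rcases hy with rfl | rfl <;> rcases hy' with rfl | rfl <;>
            first | exact absurd rfl hne | exact absurd e hne | exact absurd e.symm hne)
        exact (this.1 z (by simp) z' (by simp)).1 e
      · intro e
        have := hcl2 [z, z'] (hpair z hz z' hz') (by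
          intro y hy y' hy' hne
          simp only [List.mem_cons, List.not_mem_nil, or_false] at hy hy'
          rcases hy with rfl | rfl <;> rcases hy' with rfl | rfl <;>
            first | exact absurd rfl hne | exact absurd e hne | exact absurd e.symm hne)
        exact (this.1 z (by simp) z' (by simp)).2 e
    · intro z hz z' hz'
      by_cases h1 : M.1 z.1 z'.1 = true
      · have := hcl1 [z, z'] (hpair z hz z' hz') (by
          intro y hy y' hy' hne
          simp only [List.mem_cons, List.not_mem_nil, or_false] at hy hy'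
          rcases hy with rfl | rfl <;> rcases hy' with rfl | rfl <;>
            first | exact absurd rfl hne | exact h1 | (rw [hM.1]; exact h1))
        exact this.2.1 z (by simp) z' (by simp)
      · by_cases h2 : N.1 z.2 z'.2 = true
        · have := hcl2 [z, z'] (hpair z hz z' hz') (by
            intro y hy y' hy' hne
            simp only [List.mem_cons, List.not_mem_nil, or_false] at hy hy'
            rcases hy with rfl | rfl <;> rcases hy' with rfl | rfl <;>
              first | exact absurd rfl hne | exact h2 | (rw [hN.1]; exact h2))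
          exact this.2.1 z (by simp) z' (by simp)
        · rw [Bool.not_eq_true] at h1 h2
          rw [h1, h2]
    · intro k hk
      by_cases h1 : M.2 (k.map Prod.fst) = c0
      · by_cases h2 : N.2 (k.map Prod.snd) = c0
        · rw [h1, h2]
        · have := hcl2 k (fun z hz => hl' z (hk z hz)) (by
            intro z hz z' hz' hne
            exact hN.2.2 _ h2 _ (List.mem_map.2 ⟨z, hz, rfl⟩) _ (List.mem_map.2 ⟨z', hz', rfl⟩) hne)
          exact this.2.2 k (fun z hz => hz)
      · have := hcl1 k (fun z hz => hl' z (hk z hz)) (by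
          intro z hz z' hz' hne
          exact hM.2.2 _ h1 _ (List.mem_map.2 ⟨z, hz, rfl⟩) _ (List.mem_map.2 ⟨z', hz', rfl⟩) hne)
        exact this.2.2 k (fun z hz => hz)
  -- totality
  have hw0 : w (A 0) = D := by rw [hA0]; exact hwD
  have hw0' : w' (A' 0) = D' := by simp only [hA', cc, List.append_nil]; exact hw'D
  have hLD : ∀ n, Lv w A S n ⊆ D := fun n => by
    rw [← hw0]; exact sdiff_subset.trans (CSeq.w_anti hM hNFA hcs (Nat.zero_le n))
  have hLD' : ∀ n, Lv w' A' S' n ⊆ D' := fun n => by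
    rw [← hw0']; exact sdiff_subset.trans (CSeq.w_anti hN hNFA hcs' (Nat.zero_le n))
  obtain ⟨h1, -, -⟩ := hNFA M hM w P A S hcs
  obtain ⟨h1', -, -⟩ := hNFA N hN w' P' _ _ hcs'
  have hSD : ∀ n, S n ⊆ D := fun n => by
    rw [← hw0]; exact (h1 n).2.2.2.2.1.trans (CSeq.w_anti hM hNFA hcs (Nat.zero_le n))
  have hSD' : ∀ n, S' n ⊆ D' := fun n => by
    rw [← hw0']; exact (h1' n).2.2.2.2.1.trans (CSeq.w_anti hN hNFA hcs' (Nat.zero_le n))
  have hqt : ∀ n z, z ∈ (q n).zip (t n) → z ∈ B (n + 1) := by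
    intro n z hz
    simp only [hBdef, mem_ofPred_eq]
    apply List.mem_append_left
    simp only [cc]
    rw [List.zip_append (hcl n)]
    exact List.mem_append_right _ hz
  have htot : ∀ u ∈ D, ∃ v ∈ D', (∃ m, (u, v) ∈ B m) ∨ ∃ n, (u, v) ∈ Λ n := by
    intro u hu
    rw [← hw0] at hu
    obtain ⟨n, hn | hn⟩ := exhaust hM hNFA hcs hu
    · rw [← hq n] at hn
      obtain ⟨v, hv, h⟩ := zip_left (ht n).symm hn
      exact ⟨v, hSD' n hv, Or.inl ⟨n + 1, hqt n _ h⟩⟩
    · exact ⟨g n u, hLD' n ((hg' n).2.1.mapsTo hn), Or.inr ⟨n, hn, rfl⟩⟩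
  have hsur : ∀ v ∈ D', ∃ u ∈ D, (∃ m, (u, v) ∈ B m) ∨ ∃ n, (u, v) ∈ Λ n := by
    intro v hv
    rw [← hw0'] at hv
    obtain ⟨n, hn | hn⟩ := exhaust hN hNFA hcs' hv
    · obtain ⟨u, hu, h⟩ := zip_right (ht n).symm hn
      exact ⟨u, hSD n (by rw [← hq n]; exact hu), Or.inl ⟨n + 1, hqt n _ h⟩⟩
    · obtain ⟨u, hu, rfl⟩ := (hg' n).2.1.surjOn hn
      exact ⟨u, hLD n hu, Or.inr ⟨n, hu, rfl⟩⟩
  choose! h hhD hhR using htot
  refine ⟨h, hl, ⟨hhD, ?_, ?_⟩, ?_⟩
  · intro u hu u' hu' e
    have := hall [(u, h u), (u', h u')] (by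
      intro z hz
      simp only [List.mem_cons, List.not_mem_nil, or_false] at hz
      rcases hz with rfl | rfl
      exacts [hhR u hu, hhR u' hu'])
    exact (this.1 (u, h u) (by simp) (u', h u') (by simp)).2 e
  · intro v hv
    obtain ⟨u, hu, hR⟩ := hsur v hv
    have := hall [(u, v), (u, h u)] (by
      intro z hz
      simp only [List.mem_cons, List.not_mem_nil, or_false] at hz
      rcases hz with rfl | rfl
      exacts [hR, hhR u hu])
    exact ⟨u, hu, ((this.1 (u, v) (by simp) (u, h u) (by simp)).1 rfl).symm⟩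
  · intro x hx
    apply hall
    intro z hz
    simp only [List.mem_append, List.mem_map] at hz
    rcases hz with hz | ⟨y, hy, rfl⟩
    · exact Or.inl ⟨0, List.mem_append_right _ hz⟩
    · exact hhR y (hx y hy)

end Pool.Agent.TK
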