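import Pool.Agent.H16.TK.Stmt2

/-! Module LDE: decoding. -/

set_option autoImplicit false

open Set

namespace Pool.Agent.TK

namespace LDE

variable {C : Type} {c0 : C}

lemma ncard_image_perm (h : Equiv.Perm ℕ) (B : Set ℕ) : (h '' B).ncard = B.ncard :=
  Set.ncard_image_of_injective B h.injective

lemma image_symm_image (h : Equiv.Perm ℕ) (B : Set ℕ) : h.symm '' (h '' B) = B := by
  rw [← image_comp]; simp

lemma image_image_symm (h : Equiv.Perm ℕ) (B : Set ℕ) : h '' (h.symm '' B) = B := by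
  rw [← image_comp]; simp

lemma IsoH_symm {h : Equiv.Perm ℕ} {M N : St C} (H : IsoH h M N) : IsoH h.symm N M := by
  refine ⟨fun u v => ?_, fun l => ?_⟩
  · have := H.1 (h.symm u) (h.symm v); simpa using this.symm
  · have := H.2 (l.map h.symm)
    rw [List.map_map] at this
    simpa using this.symm

/-- transport of `IsNext` -/
lemma next_transport {M N : St C} {h : Equiv.Perm ℕ} (hNb : ∀ D, Nb N (h '' D) = h '' Nb M D)
    {w w' : Set ℕ → Set ℕ} (hw : ∀ B : Set ℕ, B.Finite → h '' (w B) = w' (h '' B))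
    {P A S : Set ℕ} (hA : A.Finite) (H : IsNext M w P A S) :
    IsNext N w' (h '' P) (h '' A) (h '' S) := by
  obtain ⟨h1, h2, h3, h4⟩ := H
  have hdis : ∀ B : Set ℕ, B.Finite →
      (Disjoint (Nb N (w' (h '' A ∪ h '' B))) (Nb N (w' (h '' A)) \ h '' P) ↔
        Disjoint (Nb M (w (A ∪ B))) (Nb M (w A) \ P)) := by
    intro B hB
    rw [← image_union, ← hw _ (hA.union hB), ← hw _ hA, hNb, hNb, ← image_diff h.injective,
      disjoint_image_iff h.injective]
  refine ⟨h1.image h, ?_, (hdis S h1).2 h3, ?_⟩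
  · rw [← hw _ hA]; exact image_mono h2
  · intro B hB hBs hBd
    obtain ⟨B0, rfl⟩ : ∃ B0, B = h '' B0 := ⟨h.symm '' B, (image_image_symm h B).symm⟩
    have hB0 : B0.Finite := Set.Finite.of_finite_image hB h.injective.injOn
    rw [← hw _ hA, image_subset_image_iff h.injective] at hBs
    obtain ⟨h5, h6⟩ := h4 B0 hB0 hBs ((hdis B0 hB0).1 hBd)
    rw [ncard_image_perm, ncard_image_perm]
    refine ⟨h5, fun he => ?_⟩
    rw [← image_union, ← image_union, ← hw _ (hA.union hB0), ← hw _ (hA.union h1)]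
    exact image_mono (h6 he)

lemma cd_congr {M N : St C} {D : Set ℕ} (hE : ∀ x ∈ D, ∀ y ∈ D, M.1 x y = N.1 x y)
    (H : Cd M D) : Cd N D := by
  refine ⟨H.1, fun u hu v hv => ?_⟩
  obtain ⟨h1, h2⟩ := H.2 u hu v hv
  clear hv
  induction h2 with
  | refl => exact Conn.refl h1
  | tail hb hs ih =>
    rename_i b c
    have hbD : b ∈ D := by
      have := Conn.not_right (M := M) (A := Dᶜ) ⟨h1, hb⟩
      simpa using this
    have hcD : c ∈ D := by simpa using hs.2
    exact ih.step (by rw [← hE b hbD c hcD]; exact hs.1) hs.2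

end LDE

open LDE in
theorem pf_LDE {C : Type} [MeasurableSpace C] {c0 : C} (hLUN : LUN C c0) (hLNX : LNX C c0)
    (hLDD : LDD C c0) (hLRF : LRF C c0) (hNUN : NUN C c0) (hITR : ITR C c0) (hNFA : NFA C c0)
    (hRPF : RPF C c0) (hMONO : MONO C c0) (hLDR : LDR C c0) : LDE C c0 := by
  intro b X M w A S k a D R r ld a0 ha0 y z hy hz hiso i hiy
  by_contra hiz
  have hM : Valid c0 M := ld.hyp.val M ld.hM
  obtain ⟨nf, -, -⟩ := hNFA M hM w _ A S ld.cs
  have hRDu := hLDR b X M w A S k a D R r ld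
  have hRD : ∀ y : Set ℕ, RD c0 M a D R y := fun y =>
    { val := hM, valR := fun i _ => hRDu.valR i (mem_univ i), cpM := fun i _ => hRDu.cpM i (mem_univ i)
      cpR := fun i _ => hRDu.cpR i (mem_univ i), pi := fun i _ => hRDu.pi i (mem_univ i)
      disj := fun i _ j _ => hRDu.disj i (mem_univ i) j (mem_univ j)
      disjA := fun i _ j _ => hRDu.disjA i (mem_univ i) j (mem_univ j) }
  obtain ⟨vy, ey1, ey2, ey3, ey4, ey5, ey6⟩ := hRPF M a D R y (hRD y)
  obtain ⟨vz, ez1, ez2, ez3, ez4, ez5, ez6⟩ := hRPF M a D R z (hRD z)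
  obtain ⟨ry1, ry2, -⟩ := hLRF b X M w A S k a D R r ld y
  obtain ⟨rz1, rz2, -⟩ := hLRF b X M w A S k a D R r ld z
  obtain ⟨wy, dy1, dy2, dy3, dy4⟩ := hLDD b X M w A S k a D R r ld y
  obtain ⟨wz, dz1, dz2, dz3, dz4⟩ := hLDD b X M w A S k a D R r ld z
  obtain ⟨by1, -⟩ := hLUN b X M w A S k a D R r ld y wy hy dy1 dy2
  obtain ⟨-, bz2⟩ := hLUN b X M w A S k a D R r ld z wz hz dz1 dz2
  have ny := hLNX b X M w A S k a D R r ld y wy dy1 dy2 dy3
  have nz := hLNX b X M w A S k a D R r ld z wz dz1 dz2 dz3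
  set Ny := repl c0 M a D R y with hNy
  set Nz := repl c0 M a D R z with hNz
  obtain ⟨h, hfix, hE, hc⟩ := hiso
  have hH : IsoH h Ny Nz := ⟨hE, hc⟩
  obtain ⟨t1, t2, t3, t4⟩ := hITR h Ny Nz hH
  obtain ⟨s1, s2, s3, s4⟩ := hITR h.symm Nz Ny (IsoH_symm hH)
  -- the transported direction
  have hdir : IsDir Nz (fun B => h '' (wy (h.symm '' B))) := by
    refine ⟨fun B hB => ?_, fun B B' hB' hBB' => ?_⟩
    · have := t1 _ _ (dy1.1 (h.symm '' B) (hB.image _))
      rwa [image_image_symm] at this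
    · exact image_mono (dy1.2 _ _ (hB'.image _) (image_mono hBB'))
  have hw'' := bz2 _ hdir (by
    intro B hB i hSm
    have := s4 _ _ hSm
    simp only [image_symm_image] at this
    exact by1 _ (hB.image _) i this)
  have hw : ∀ B : Set ℕ, B.Finite → h '' (wy B) = wz (h '' B) := by
    intro B hB
    have := hw'' (h '' B) (hB.image _)
    simpa only [image_symm_image] using this
  have hfix0 : ∀ T : Set ℕ, T ⊆ A 0 → h '' T = T := by
    intro T hT
    have : ∀ x ∈ T, h x = x := fun x hx => hfix x (by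
      have := hT hx; rw [← ha0] at this; exact this)
    ext x
    constructor
    · rintro ⟨t, ht, rfl⟩; rw [this t ht]; exact ht
    · intro hx; exact ⟨x, hx, this x hx⟩
  have hP : h '' (Dm M w) = Dm M w := hfix0 _ ld.cs.P0
  have hAn : ∀ n, h '' (A n) = A n := by
    intro n
    induction n with
    | zero => exact hfix0 _ (Subset.refl _)
    | succ n ih =>
      have hfin : (A n).Finite := (nf n).1
      have h1 := next_transport (h := h) t2 hw hfin (ny n)
      rw [hP, ih] at h1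
      have h2 := hNUN Nz vz wz dz1 (Dm M w) (A n) _ _ hfin (nf n).2.1 h1 (nz n)
      rw [ld.cs.succ, image_union, ih, h2]
  have hwA : ∀ n, h '' (w (A n)) = w (A n) := by
    intro n
    have := hw (A n) (nf n).1
    rwa [dy3, hAn, dz3] at this
  have wmono : ∀ m n, m ≤ n → w (A n) ⊆ w (A m) := by
    intro m n hmn
    induction hmn with
    | refl => exact Subset.refl _
    | step hmn ih => exact (nf _).2.2.2.2.2.2.1.trans ih
  have Amono : ∀ m n, m ≤ n → A m ⊆ A n := by
    intro m n hmn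
    induction hmn with
    | refl => exact Subset.refl _
    | step hmn ih => refine ih.trans ?_; rw [ld.cs.succ]; exact subset_union_left
  -- the image of `D i`
  set D' := h '' (D i) with hD'
  have hcp' : IsCp Nz (A (k i + 1)) D' := by
    have := t1 _ _ (ey5 i hiy)
    rwa [ld.msa, hAn] at this
  have hD'sub : D' ⊆ w (A (k i)) := by
    rw [← hwA]; exact image_mono (ld.lev i).2.1
  have hD'ne : D' ≠ w (A (k i + 1)) := by
    rw [← hwA]
    intro he
    exact (ld.lev i).2.2 (h.injective.image_injective he)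
  have hD'dis : ∀ x ∈ D', x ∉ w (A (k i + 1)) := by
    intro x hx hx'
    exact hD'ne (hcp'.eq_of_inter vz (rz1 (k i + 1)) hx hx')
  have hD'A : ∀ x ∈ D', x ∉ A (k i + 1) := fun x hx hx' =>
    Set.disjoint_left.1 hcp'.disj hx hx'
  have hDj : ∀ j ∈ z, ∀ x ∈ D', x ∉ D j := by
    intro j hj x hx hxj
    have hij : j ≠ i := fun he => hiz (he ▸ hj)
    have hkk : k j ≠ k i := fun he => hij (ld.mono.injective he)
    rcases lt_or_gt_of_ne hkk with hlt | hlt
    · have h1 : x ∈ w (A (k j + 1)) := wmono _ _ hlt (hD'sub hx)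
      exact (ld.lev j).2.2 ((ld.lev j).1.eq_of_inter hM
        (ld.cs.dir.1 _ (nf (k j + 1)).1) hxj h1)
    · exact hD'dis x hx (wmono _ _ hlt ((ld.lev j).2.1 hxj))
  have hagree1 : ∀ u v, (∀ j ∈ z, u ∉ D j) → (∀ j ∈ z, v ∉ D j) → Nz.1 u v = M.1 u v := ez1
  have hcpM : IsCp M (A (k i + 1)) D' := by
    rw [isCp_iff hM]
    refine ⟨cd_congr (M := Nz) (fun x hx y hy => hagree1 x y (fun j hj => hDj j hj x hx)
      (fun j hj => hDj j hj y hy)) (hcp'.cd vz), hcp'.disj, ?_⟩
    rintro u ⟨hu, d, hd, hud⟩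
    by_cases huz : ∀ j ∈ z, u ∉ D j
    · exact hcp'.nb vz ⟨hu, d, hd, by
        rw [hagree1 u d huz (fun j hj => hDj j hj d hd)]; exact hud⟩
    · push Not at huz
      obtain ⟨j, hj, huj⟩ := huz
      have hdj : d ∈ A (k j + 1) := by
        rw [← ld.msa]
        exact (hRDu.cpM j (mem_univ j)).nb hM ⟨hDj j hj d hd, u, huj, by rw [hM.1]; exact hud⟩
      have hij : j ≠ i := fun he => hiz (he ▸ hj)
      have hkk : k j ≠ k i := fun he => hij (ld.mono.injective he)
      exfalso
      rcases lt_or_gt_of_ne hkk with hlt | hlt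
      · exact hD'A d hd (Amono _ _ (by omega) hdj)
      · refine hD'A d hd ((nf (k i + 1)).2.2.2.2.2.2.2.2.2 ⟨hD'dis d hd, u,
          wmono _ _ hlt ((ld.lev j).2.1 huj), by rw [hM.1]; exact hud⟩)
  have hFI : FI Nz (a i) D' M (a i) D' := by
    refine ⟨id, rfl, Set.bijOn_id D', fun x hx => ?_⟩
    have hall : ∀ p ∈ (a i).zip (a i) ++ x.map (fun t => (t, id t)), p.1 = p.2 ∧
        ∀ j ∈ z, p.1 ∉ D j := by
      intro p hp
      simp only [List.mem_append, List.mem_map] at hp
      rcases hp with hp | ⟨t, ht, rfl⟩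
      · rw [← dg_eq_zip] at hp
        obtain ⟨h1, h2⟩ := mem_dg.1 hp
        exact ⟨h1, fun j hj => Set.disjoint_left.1 (hRDu.disjA i (mem_univ i) j (mem_univ j)) h2⟩
      · exact ⟨rfl, fun j hj => hDj j hj t (hx t ht)⟩
    refine ⟨?_, ?_, ?_⟩
    · intro p hp q hq; rw [(hall p hp).1, (hall q hq).1]
    · intro p hp q hq
      rw [← (hall p hp).1, ← (hall q hq).1]
      exact hagree1 _ _ (hall p hp).2 (hall q hq).2
    · intro q hq
      have e : q.map Prod.snd = q.map Prod.fst :=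
        List.map_congr_left (fun p hp => ((hall p (hq p hp)).1).symm)
      rw [e]
      refine ez2 _ ?_
      intro u hu j hj
      simp only [List.mem_map] at hu
      obtain ⟨p, hp, rfl⟩ := hu
      exact (hall p (hq p hp)).2 j hj
  obtain ⟨v, hv, hDv⟩ := hcpM
  have hsm : small c0 (r 0) M (a i) D' := by
    rw [hDv, ← ld.msa]
    refine ld.r0 (a i) v ?_
    have := hv; rw [← ld.msa] at this; exact this
  have hsm2 : Sm c0 (r 0) Nz D' := ⟨a i, by rw [ld.msa]; exact hcp', hsm.fi hFI.symm⟩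
  have hsm3 := s4 _ _ hsm2
  rw [hD', image_symm_image] at hsm3
  obtain ⟨a1, ha1, hs1⟩ := hsm3
  have hom : RLe C om (r 0) := by
    refine RLe.trans ?_ ld.rb
    refine RLe.trans ?_ ld.hyp.base
    exact (RLe.lim om).trans (RLe.lim _)
  have hs2 := hMONO (r 0) hom Ny a1 (a i) (D i) (D i) vy ha1 (ey5 i hiy) (Subset.refl _) hs1
  have hr : ∀ n, RLe C (r 0) (r n) := by
    intro n
    induction n with
    | zero => exact RLe.refl _
    | succ n ih => exact ih.trans (ld.rle n)
  exact ld.big i ((hs2.rank (hr i)).fi (ey6 i hiy))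

end Pool.Agent.TK
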