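import Pool.Agent.H16.TK.Stmt2
import Pool.Agent.H16.TK.EGC

/-! LDR: the data are admissible. -/

set_option autoImplicit false

open Set

namespace Pool.Agent.TK

theorem pf_LDR {C : Type} [MeasurableSpace C] {c0 : C} (hNFA : NFA C c0) : LDR C c0 := by
  classical
  intro b X M w A S k a D R r h
  have hM : Valid c0 M := h.hyp.val M h.hM
  have hcs := h.cs
  obtain ⟨h1, -, -⟩ := hNFA M hM w _ A S hcs
  have hcp : ∀ i, IsCp M (ms (a i)) (D i) := fun i => by rw [h.msa i]; exact (h.lev i).1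
  have hDw : ∀ i, D i ⊆ w (A (k i)) := fun i => (h.lev i).2.1
  have hDw' : ∀ i, Disjoint (D i) (w (A (k i + 1))) := by
    intro i
    rw [Set.disjoint_left]
    intro x hx hx'
    exact (h.lev i).2.2 ((h.lev i).1.eq_of_inter hM (hcs.dir.1 _ (h1 _).1) hx hx')
  have hDLv : ∀ i, D i ⊆ Lv w A S (k i) := by
    intro i x hx
    refine ⟨hDw i hx, ?_⟩
    rintro (h' | h')
    · have : x ∈ A (k i + 1) := by rw [hcs.succ]; exact Or.inr h'
      exact Set.disjoint_left.1 (h.lev i).1.disj hx this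
    · exact Set.disjoint_left.1 (hDw' i) hx h'
  refine ⟨hM, fun i _ => h.valR i, fun i _ => hcp i, fun i _ => h.cpR i, fun i _ => h.pi i,
    ?_, ?_⟩
  · intro i _ j _ hij
    rw [Set.disjoint_left]
    intro x hx hx'
    exact hij (h.mono.injective (Lv_Lv hM hNFA hcs (hDLv i hx) (hDLv j hx')))
  · intro i _ j _
    rw [h.msa i]
    exact ((Lv_A hM hNFA hcs (k j) (k i + 1)).mono_left (hDLv j)).symm

end Pool.Agent.TK
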