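import Pool.Agent.H16.TK.Stmt2

/-! NMI: a smallest admissible separator is a neighbourhood. -/

set_option autoImplicit false

open Set

namespace Pool.Agent.TK

theorem pf_NMI {C : Type} {c0 : C} : NMI C c0 := by
  classical
  intro M hM w hw P A B hA hB hmin
  obtain ⟨hBf, hBw, hBd⟩ := hB
  have hAB : (A ∪ B).Finite := hA.union hBf
  have h1 : IsCp M (A ∪ B) (w (A ∪ B)) := hw.1 _ hAB
  have h2 : IsCp M A (w A) := hw.1 _ hA
  have hsub : Nb M (w (A ∪ B)) ∩ w A ⊆ B := by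
    rintro x ⟨hx, hxw⟩
    rcases h1.nb hM hx with h | h
    · exact absurd h (Set.disjoint_left.1 h2.disj hxw)
    · exact h
  have hB'f : (Nb M (w (A ∪ B)) ∩ w A).Finite := hBf.subset hsub
  have hAB' : (A ∪ (Nb M (w (A ∪ B)) ∩ w A)).Finite := hA.union hB'f
  have h3 : IsCp M (A ∪ (Nb M (w (A ∪ B)) ∩ w A)) (w (A ∪ B)) := by
    refine h1.change hM ?_ ?_
    · intro x hx
      rcases h1.nb hM hx with h | h
      · exact Or.inl h
      · exact Or.inr ⟨hx, hBw h⟩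
    · exact h1.disj.mono_right (union_subset_union_right _ hsub)
  have h4 : w (A ∪ B) ⊆ w (A ∪ (Nb M (w (A ∪ B)) ∩ w A)) :=
    hw.2 _ _ hAB (union_subset_union_right _ hsub)
  have h5 : w (A ∪ (Nb M (w (A ∪ B)) ∩ w A)) = w (A ∪ B) := by
    obtain ⟨x, hx⟩ := h1.nonempty
    exact (hw.1 _ hAB').eq_of_inter hM h3 (h4 hx) hx
  have h6 := hmin (Nb M (w (A ∪ B)) ∩ w A) ⟨hB'f, inter_subset_right, by rw [h5]; exact hBd⟩
  exact (Set.eq_of_subset_of_ncard_le hsub h6 hBf).symm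

end Pool.Agent.TK
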