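import Pool.Agent.H16.TK.Stmt2

/-! REN: end-pieces are uniformly rigid. -/

set_option autoImplicit false

open Set

namespace Pool.Agent.TK

/-- join of two ranks -/
def jn (r s : Rk) : Rk := Rk.sup (fun n => if n = 0 then r else s)

lemma RLe.jn_left {C : Type} (r s : Rk) : RLe C r (jn r s) :=
  RLe.sup (fun n => if n = 0 then r else s) 0

lemma RLe.jn_right {C : Type} (r s : Rk) : RLe C s (jn r s) :=
  RLe.sup (fun n => if n = 0 then r else s) 1

theorem pf_REN {C : Type} [MeasurableSpace C] {c0 : C} (hRSM : RSM C c0) (hEDR : EDR C c0)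
    (hEKO : EKO C c0) (hEGL : EGL C c0) (hMONO : MONO C c0) (_hNFA : NFA C c0) : REN C c0 := by
  classical
  intro b X hyp
  have hom : RLe C om b := ((RLe.lim om).trans (RLe.lim _)).trans hyp.base
  obtain ⟨d0, hd0, hrig⟩ := hRSM X hyp.val hyp.tc b
  have hs : RLe C om (Rk.lim (W b)) := (RLe.om_W b).trans (RLe.lim _)
  refine ⟨jn (Rk.lim (jn (Rk.lim (Rk.lim (Rk.lim (W b)))) (Sh (Rk.lim (W b)) (Rk.lim (W d0)))))
    (Rk.lim (Rk.lim (Rk.lim (W b)))), ?_⟩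
  intro M hM a D hD hE
  obtain ⟨w, A, S, hcs, hA0, hwD, hbig, hsm⟩ := hE
  intro N a' v hN hv hFB
  have hMv := hyp.val M hM
  obtain ⟨w', hw', hw'D, hTP⟩ := hEDR b M w A S a D hom hMv hcs hA0 hwD hbig hsm N a'
    (cp N (ms a') v) hN (isCp_cp hv) (hFB.mono (RLe.jn_right _ _))
  have hwD' : w (ms a) = D := by rw [← hA0]; exact hwD
  have hq : ∀ n, ∃ q : List ℕ, ms q = S n := fun n => by
    obtain ⟨q, hq, -⟩ := exists_list (hcs.next n).1
    exact ⟨q, hq⟩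
  choose q hq using hq
  obtain ⟨t, ht1, ht2, ht3⟩ := hEKO (Rk.lim (W b)) _ hs (RLe.jn_left _ _) M N w w' a a' D
    (cp N (ms a') v) hMv hN hw' hwD' hw'D hTP (hFB.mono (RLe.jn_left _ _)) (Dm M w) A S q hcs
    hA0 hq
  refine hEGL (Rk.lim (W b)) _ d0 hs (RLe.jn_left _ _) (RLe.jn_right _ _) M N w w' a a' D
    (cp N (ms a') v) hMv hN hw' hwD' hw'D hFB.1 hTP (Dm M w) A S q t hcs hA0 hq ht1 ht2 ht3 ?_
  intro n D1 hL e he
  obtain ⟨a1, ha1, hs1⟩ := hsm n D1 hL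
  have h1 := hMONO b hom M a1 e D1 D1 hMv ha1 he subset_rfl hs1
  obtain ⟨u, hu, rfl⟩ := he
  exact hrig M hM e u hu h1

end Pool.Agent.TK
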