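import Pool.Agent.H16.TK.Stmt2
import Pool.Agent.H16.TK.REN
import Pool.Agent.H16.TK.EGC

/-! RTA: tame flaps are uniformly rigid. -/

set_option autoImplicit false

open Set

namespace Pool.Agent.TK

/-- a total and surjective relation all of whose finite parts are partial isomorphisms -/
lemma FI_of_rel {C : Type} {M N : St C} {a a' : List ℕ} {D D' : Set ℕ}
    (hl : a.length = a'.length) (R : ℕ → ℕ → Prop)
    (hR : ∀ l : List (ℕ × ℕ), (∀ z ∈ l, z ∈ a.zip a' ∨ R z.1 z.2) → PI M N l)
    (htot : ∀ u ∈ D, ∃ v ∈ D', R u v) (hsur : ∀ v ∈ D', ∃ u ∈ D, R u v) :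
    FI M a D N a' D' := by
  classical
  choose! h hhD hhR using htot
  refine ⟨h, hl, ⟨hhD, ?_, ?_⟩, ?_⟩
  · intro u hu u' hu' e
    have := hR [(u, h u), (u', h u')] (by
      intro z hz
      simp only [List.mem_cons, List.not_mem_nil, or_false] at hz
      rcases hz with rfl | rfl
      exacts [Or.inr (hhR u hu), Or.inr (hhR u' hu')])
    exact (this.1 (u, h u) (by simp) (u', h u') (by simp)).2 e
  · intro v hv
    obtain ⟨u, hu, hRu⟩ := hsur v hv
    have := hR [(u, v), (u, h u)] (by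
      intro z hz
      simp only [List.mem_cons, List.not_mem_nil, or_false] at hz
      rcases hz with rfl | rfl
      exacts [Or.inr hRu, Or.inr (hhR u hu)])
    exact ⟨u, hu, ((this.1 (u, v) (by simp) (u, h u) (by simp)).1 rfl).symm⟩
  · intro x hx
    apply hR
    intro z hz
    simp only [List.mem_append, List.mem_map] at hz
    rcases hz with hz | ⟨y, hy, rfl⟩
    · exact Or.inl hz
    · exact Or.inr (hhR y (hx y hy))

theorem pf_RTA {C : Type} [MeasurableSpace C] {c0 : C} (hGLU : GLU C c0) (hRSM : RSM C c0)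
    (hREN : REN C c0) (hMMK : MMK C c0) : RTA C c0 := by
  classical
  intro b X hyp
  have hom : RLe C om b := ((RLe.lim om).trans (RLe.lim _)).trans hyp.base
  obtain ⟨dS, hdS, hS⟩ := hRSM X hyp.val hyp.tc b
  obtain ⟨dR, hR⟩ := hREN b X hyp
  refine ⟨Rk.lim (Sh Rk.zero (Rk.lim (W (jn dS dR)))), ?_⟩
  intro M hM a D hD hT
  have hMv := hyp.val M hM
  obtain ⟨e, heD, hT⟩ := hT
  have hrig : ∀ v ∈ D, v ∉ e → Rig c0 (jn dS dR) M (a ++ e) (cp M (ms (a ++ e)) v) := by
    intro v hv hve
    have hva : v ∉ a ++ e := by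
      simp only [List.mem_append, not_or]
      exact ⟨fun h => Set.disjoint_left.1 hD.disj hv h, hve⟩
    rcases hT v hv hve with ⟨a1, h1, h2⟩ | h1
    · exact (hS M hM _ v hva (hMMK b hom M a1 (a ++ e) _ hMv h1 (isCp_cp hva) h2)).rank
        (RLe.jn_left _ _)
    · exact (hR M hM _ _ (isCp_cp hva) h1).rank (RLe.jn_right _ _)
  intro N a' v hN hv hFB
  have hl := hFB.1
  have hD' : IsCp N (ms a') (cp N (ms a') v) := isCp_cp hv
  generalize cp N (ms a') v = D' at hD' hFB
  obtain ⟨e', hel, heD', hb⟩ := lim_ext hFB.2 e heD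
  have hzl : ∀ {x y : List ℕ} {u v : ℕ} {p : List (ℕ × ℕ)}, x.length = y.length →
      PI M N p → (∀ z ∈ x.zip y, z ∈ p) → (u, v) ∈ p → (u ∈ x ↔ v ∈ y) := by
    intro x y u v p hxy hp hz huv
    constructor
    · intro hu
      obtain ⟨v', hv', h⟩ := zip_left hxy hu
      have := (hp.1 _ huv _ (hz _ h)).1 rfl
      simp only at this
      rw [this]; exact hv'
    · intro hv
      obtain ⟨u', hu', h⟩ := zip_right hxy hv
      have := (hp.1 _ huv _ (hz _ h)).2 rfl
      simp only at this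
      rw [this]; exact hu'
  have hb2 := bf_restrict (U := D \ ms e) (U' := D' \ ms e') (s := Rk.zero)
    (r := Rk.lim (W (jn dS dR))) sdiff_subset sdiff_subset (p0 := e.zip e' ++ a.zip a') (by
      intro x hx x' hx' hp
      have h1 : x ∈ e ↔ x' ∈ e' := hzl hel.symm (bf_PI hp)
        (fun z hz => List.mem_cons_of_mem _ (List.mem_append_left _ hz)) List.mem_cons_self
      simp only [mem_sdiff, mem_ms, hx, hx', true_and, h1]) (fun z hz => hz) hb
  have hll : (a ++ e).length = (a' ++ e').length := by simp [hl, hel]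
  have hFI : FI M (a ++ e) (D \ ms e) N (a' ++ e') (D' \ ms e') := by
    refine hGLU (jn dS dR) M N (a ++ e) (a' ++ e') _ _ hMv hN hll ?_ ?_ ?_ ?_
    · rintro u ⟨hu, hue⟩
      have hu1 : u ∉ a ++ e := by
        simp only [List.mem_append, not_or]
        exact ⟨fun h => Set.disjoint_left.1 hD.disj hu h, hue⟩
      refine ⟨hu1, fun x hx => ⟨cp_subset hMv hD (by rw [ms_append]; exact subset_union_left) hu hx,
        fun hxe => ?_⟩⟩
      exact Conn.not_right hx (by rw [ms_append]; exact Or.inr hxe)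
    · rintro u ⟨hu, hue⟩
      have hu1 : u ∉ a' ++ e' := by
        simp only [List.mem_append, not_or]
        exact ⟨fun h => Set.disjoint_left.1 hD'.disj hu h, hue⟩
      refine ⟨hu1, fun x hx => ⟨cp_subset hN hD' (by rw [ms_append]; exact subset_union_left) hu hx,
        fun hxe => ?_⟩⟩
      exact Conn.not_right hx (by rw [ms_append]; exact Or.inr hxe)
    · refine bf_mono hb2 ?_
      intro z hz
      rw [List.zip_append hl] at hz
      simp only [List.mem_append] at hz ⊢
      exact hz.symm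
    · rintro u ⟨hu, hue⟩
      exact hrig u hu hue
  obtain ⟨g, -, hg2, hg3⟩ := hFI
  refine FI_of_rel hl (fun u v => (u, v) ∈ e.zip e' ∨ (u ∈ D \ ms e ∧ v = g u)) ?_ ?_ ?_
  · intro l hl'
    have h1 := hg3 ((l.filter (fun z => z.1 ∈ D \ ms e)).map Prod.fst) (by
      intro z hz
      simp only [List.mem_map, List.mem_filter, decide_eq_true_eq] at hz
      obtain ⟨y, ⟨-, hy⟩, rfl⟩ := hz
      exact hy)
    refine h1.mono ?_
    intro z hz
    rw [List.zip_append hl]
    rcases hl' z hz with hz' | hz' | hz'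
    · exact List.mem_append_left _ (List.mem_append_left _ hz')
    · exact List.mem_append_left _ (List.mem_append_right _ hz')
    · apply List.mem_append_right
      simp only [List.mem_map, List.mem_filter, decide_eq_true_eq]
      refine ⟨z.1, ⟨z, ⟨hz, hz'.1⟩, rfl⟩, ?_⟩
      rw [← hz'.2]
  · intro u hu
    by_cases hue : u ∈ e
    · obtain ⟨v, hv, h⟩ := zip_left hel.symm hue
      exact ⟨v, heD' v hv, Or.inl h⟩
    · exact ⟨g u, (hg2.mapsTo ⟨hu, hue⟩).1, Or.inr ⟨⟨hu, hue⟩, rfl⟩⟩
  · intro v hv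
    by_cases hve : v ∈ e'
    · obtain ⟨u, hu, h⟩ := zip_right hel.symm hve
      exact ⟨u, heD u hu, Or.inl h⟩
    · obtain ⟨u, hu, rfl⟩ := hg2.surjOn ⟨hv, hve⟩
      exact ⟨u, hu.1, Or.inr ⟨hu, rfl⟩⟩

end Pool.Agent.TK
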