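import Pool.Agent.H48.TK.BAS
import Pool.Agent.H34.TK.CTR
import Pool.Agent.H34.TK.REL
import Pool.Agent.H16.TK.CNT
import Pool.Agent.H75.TK.COMP
import Pool.Agent.H1.TK.TRA
import Pool.Agent.H54.TK.INF
import Pool.Agent.H76.TK.EXN
import Pool.Agent.H75.TK.RPF
import Pool.Agent.H74.TK.MEM
import Pool.Agent.H77.TK.MEA
import Pool.Agent.H76.TK.FINB
import Pool.Agent.H69.TK.RST
import Pool.Agent.H51.TK.EPM
import Pool.Agent.H76.TK.RP1
import Pool.Agent.H42.TK.MMK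
import Pool.Agent.H75.TK.SPL
import Pool.Agent.H70.TK.TA1
import Pool.Agent.H16.TK.NMI
import Pool.Agent.H76.TK.NE1
import Pool.Agent.H21.TK.NFA
import Pool.Agent.H3.TK.FISUB
import Pool.Agent.H51.TK.MSUB
import Pool.Agent.H86.TK.MONO
import Pool.Agent.H75.TK.TA2
import Pool.Agent.H48.TK.DIR
import Pool.Agent.H77.TK.UNC
import Pool.Agent.H68.TK.NEX
import Pool.Agent.H81.TK.CSX
import Pool.Agent.H75.TK.EXB
import Pool.Agent.H75.TK.SC1
import Pool.Agent.H75.TK.SC2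
import Pool.Agent.H75.TK.SCO
import Pool.Agent.H69.TK.LDX
import Pool.Agent.H16.TK.LDR
import Pool.Agent.H75.TK.LRF
import Pool.Agent.H90.TK.LUN
import Pool.Agent.H76.TK.LNX
import Pool.Agent.H34.TK.LDD
import Pool.Agent.H66.TK.ITR
import Pool.Agent.H16.TK.LDE
import Pool.Agent.H76.TK.LEVEL
import Pool.Agent.H21.TK.TAM
import Pool.Agent.H66.TK.GLA
import Pool.Agent.H39.TK.GLB
import Pool.Agent.H66.TK.GLU
import Pool.Agent.H75.TK.RSM
import Pool.Agent.H86.TK.EVB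
import Pool.Agent.H75.TK.VBT
import Pool.Agent.H35.TK.EDR
import Pool.Agent.H39.TK.ENX
import Pool.Agent.H75.TK.EKO
import Pool.Agent.H68.TK.EGA
import Pool.Agent.H16.TK.EGB
import Pool.Agent.H16.TK.EGC
import Pool.Agent.H69.TK.EGL
import Pool.Agent.H16.TK.REN
import Pool.Agent.H16.TK.RTA
import Pool.Agent.H16.TK.CORE
import Pool.Agent.H76.TK.LOP
import Pool.Agent.H16.TK.NFM
import Pool.Agent.H81.TK.RED
import Pool.Agent.H75.TK.THN
import Pool.Agent.H90.TK.TKS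
import Pool.Agent.H75.TK.TYC

/-! Assembly of the modules. -/

set_option autoImplicit false

open Set

namespace Pool.Agent.TK

/-- the combinatorial theorem and the descriptive part together -/
theorem main_of {C : Type} [MeasurableSpace C] [StandardBorelSpace C] {c0 : C}  :
    MAIN C c0 := by

  have hBAS : BAS C c0 := Pool.Agent.H48.TK.pf_BAS
  have hCTR : CTR C := pf_CTR
  have hREL : REL C := pf_REL hCTR
  have hCNT : CNT C c0 := pf_CNT hREL
  have hCOMP : COMP C c0 := pf_COMP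
  have hTRA : TRA C c0 := pf_TRA
  have hINF : INF C := pf_INF
  have hEXN : EXN C c0 := pf_EXN hTRA hINF
  have hRPF : RPF C c0 := pf_RPF
  have hMEM : MEM C c0 := pf_MEM hCOMP hRPF
  have hMEA : MEA C c0 := pf_MEA hRPF
  have hFINB : FINB C c0 := pf_FINB hEXN hRPF hMEM hMEA
  have hRST : RST C c0 := pf_RST
  have hEPM : EPM C c0 := pf_EPM hRST
  have hRP1 : RP1 C c0 := pf_RP1 hTRA hRPF hCOMP hCTR hINF
  have hMMK : MMK C c0 := pf_MMK hRP1 hINF
  have hSPL : SPL C c0 := pf_SPL hFINB hEPM hMMK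
  have hTA1 : TA1 C c0 := pf_TA1 hSPL
  have hNMI : NMI C c0 := pf_NMI
  have hPTH : PTH C c0 := pf_PTH
  have hNFA : NFA C c0 := pf_NFA hNMI hPTH
  have hFISUB : FISUB C c0 := pf_FISUB
  have hMSUB : MSUB C c0 := pf_MSUB hRP1 hFISUB hINF
  have hMONO : MONO C c0 := pf_MONO hMSUB hMMK
  have hTA2 : TA2 C c0 := pf_TA2 hNFA hRST hMONO
  have hDIR : DIR C c0 := Pool.Agent.H48.TK.pf_DIR
  have hNE1 : NE1 C c0 := pf_NE1
  have hUNC : UNC C c0 := pf_UNC
  have hNEX : NEX C c0 := pf_NEX hNE1 hNMI hUNC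
  have hCSX : CSX C c0 := pf_CSX hNEX
  have hEXB : EXB C c0 := pf_EXB hEXN hCNT hRPF hMEM
  have hSC1 : SC1 C := pf_SC1
  have hSC2 : SC2 C := pf_SC2
  have hSCO : SCO C := pf_SCO hSC1 hSC2
  have hLDX : LDX C c0 := pf_LDX hEXB hSCO
  have hLDR : LDR C c0 := pf_LDR hNFA
  have hLRF : LRF C c0 := pf_LRF hCOMP hRPF hCTR hNFA hLDR
  have hLUN : LUN C c0 := pf_LUN hRPF hMONO hNFA hLDR hLRF
  have hLNX : LNX C c0 := pf_LNX hCTR hNFA hLRF
  have hLDD : LDD C c0 := pf_LDD hDIR hNFA hLRF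
  have hNUN : NUN C c0 := pf_NUN hNMI
  have hITR : ITR C c0 := pf_ITR
  have hLDE : LDE C c0 := pf_LDE hLUN hLNX hLDD hLRF hNUN hITR hNFA hRPF hMONO hLDR
  have hLEVEL : LEVEL C c0 := pf_LEVEL hLDX hLDE hLDR hMEA hMEM
  have hTAM : TAM C c0 := pf_TAM hTA1 hTA2 hDIR hBAS hCSX hLEVEL
  have hGLA : GLA C c0 := pf_GLA hREL hCTR
  have hGLB : GLB C c0 := pf_GLB
  have hGLU : GLU C c0 := pf_GLU hGLA hGLB
  have hRSM : RSM C c0 := pf_RSM hCNT hSCO
  have hEVB : EVB C c0 := pf_EVB hNFA hMONO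
  have hVBT : VBT C c0 := pf_VBT hREL hCTR
  have hEDR : EDR C c0 := pf_EDR hEVB hVBT hCTR hMMK hNFA
  have hENX : ENX C c0 := pf_ENX
  have hEKO : EKO C c0 := pf_EKO hENX hNUN hNFA
  have hEGA : EGA C c0 := pf_EGA hENX hNFA
  have hEGB : EGB C c0 := pf_EGB hGLU hNFA
  have hEGC : EGC C c0 := pf_EGC hNFA
  have hEGL : EGL C c0 := pf_EGL hEGA hEGB hEGC
  have hREN : REN C c0 := pf_REN hRSM hEDR hEKO hEGL hMONO hNFA
  have hRTA : RTA C c0 := pf_RTA hGLU hRSM hREN hMMK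
  have hCORE : CORE C c0 := pf_CORE hTAM hRTA hGLU
  have hLOP : LOP C := pf_LOP
  have hNFM : NFM C := pf_NFM
  have hRED : RED C c0 := pf_RED
  have hTHN : THN C := pf_THN
  have hTKS : TKS C c0 := pf_TKS
  have hTYC : TYC C := pf_TYC hTHN hNFM

  refine hRED ?_
  intro X hX hval hinv
  by_cases hP : Perf X
  · exact Or.inl hP
  · right
    obtain ⟨b0, hb0⟩ := hLOP X hX hinv
    have hyp : Hyp c0 (jn b0 (Rk.lim (Rk.lim om))) X :=
      { val := hval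
        cl := fun M hM M' h => hb0 M hM M' (RLe.jn_left _ _ _ _ _ _ _ h)
        tc := hTYC X hX hinv hP
        nf := hNFM X hP
        base := RLe.jn_right _ _ }
    obtain ⟨T, hT, h⟩ := hCORE _ X hyp
    exact ⟨T, hT, fun M hM hK => h M hM (hTKS M (hval M hM) hK)⟩

end Pool.Agent.TK
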