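import Mathlib

/-!
Definitions for the theorem on Borel classes of countable structures whose Gaifman graphs contain
no subdivision of the infinite complete graph. Everything lives on the natural numbers.
-/

set_option autoImplicit false

open Set

namespace Pool.Agent.TK

/-- countable ranks (well-founded countable trees) -/
inductive Rk : Type
  | zero : Rk
  | sup : (ℕ → Rk) → Rk

/-- successor -/
def Rk.suc (r : Rk) : Rk := Rk.sup (fun _ => r)

/-- iterated successor -/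
def Rk.sucN : ℕ → Rk → Rk
  | 0, r => r
  | n + 1, r => Rk.suc (Rk.sucN n r)

/-- limit of the iterated successors -/
def Rk.lim (r : Rk) : Rk := Rk.sup (fun n => Rk.sucN n r)

/-- the rank omega -/
def om : Rk := Rk.lim Rk.zero

/-- rank shift: `s` below every move -/
def Sh (s : Rk) : Rk → Rk
  | .zero => s
  | .sup f => Rk.sup (fun n => Sh s (f n))

/-- the rank shift used for passing from tuples to components -/
def W (r : Rk) : Rk := Sh om r

/-- Structures on the natural numbers: a graph and a value for every list. -/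
abbrev St (C : Type) := (ℕ → ℕ → Bool) × (List ℕ → C)

section
variable {C : Type}

/-- The graph is simple and the values are supported on cliques. -/
def Valid (c0 : C) (M : St C) : Prop :=
  (∀ u v, M.1 u v = M.1 v u) ∧ (∀ u, M.1 u u = false) ∧
    ∀ l : List ℕ, M.2 l ≠ c0 → ∀ u ∈ l, ∀ v ∈ l, u ≠ v → M.1 u v = true

/-- partial isomorphisms, given by finite lists of pairs -/
def PI (M M' : St C) (p : List (ℕ × ℕ)) : Prop :=
  (∀ z ∈ p, ∀ w ∈ p, (z.1 = w.1 ↔ z.2 = w.2)) ∧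
  (∀ z ∈ p, ∀ w ∈ p, M.1 z.1 w.1 = M'.1 z.2 w.2) ∧
  ∀ q : List (ℕ × ℕ), (∀ z ∈ q, z ∈ p) → M.2 (q.map Prod.fst) = M'.2 (q.map Prod.snd)

/-- back-and-forth equivalence of rank `r`, moves inside `U` and `U'` -/
def bf (M M' : St C) (U U' : Set ℕ) : Rk → List (ℕ × ℕ) → Prop
  | .zero, p => PI M M' p
  | .sup f, p => ∀ n, bf M M' U U' (f n) p ∧
      (∀ a ∈ U, ∃ b ∈ U', bf M M' U U' (f n) ((a, b) :: p)) ∧
      (∀ b ∈ U', ∃ a ∈ U, bf M M' U U' (f n) ((a, b) :: p))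

/-- order of ranks -/
def RLe (C : Type) (r s : Rk) : Prop :=
  ∀ (M M' : St C) (U U' : Set ℕ) (p : List (ℕ × ℕ)), bf M M' U U' s p → bf M M' U U' r p

/-- the diagonal position -/
def dg (k : List ℕ) : List (ℕ × ℕ) := k.map (fun z => (z, z))

/-- the set of elements of a list -/
def ms (a : List ℕ) : Set ℕ := {x | x ∈ a}

/-- `u` and `v` are joined by a path which avoids `A` -/
def Conn (M : St C) (A : Set ℕ) (u v : ℕ) : Prop :=
  u ∉ A ∧ Relation.ReflTransGen (fun x y => M.1 x y = true ∧ y ∉ A) u v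

/-- the component of `v` after removing `A` -/
def cp (M : St C) (A : Set ℕ) (v : ℕ) : Set ℕ := {u | Conn M A v u}

/-- `D` is a component of `M - A` -/
def IsCp (M : St C) (A D : Set ℕ) : Prop := ∃ v, v ∉ A ∧ D = cp M A v

/-- connected sets -/
def Cd (M : St C) (D : Set ℕ) : Prop := D.Nonempty ∧ ∀ u ∈ D, ∀ v ∈ D, Conn M Dᶜ u v

/-- outer neighbours -/
def Nb (M : St C) (S : Set ℕ) : Set ℕ := {u | u ∉ S ∧ ∃ s ∈ S, M.1 u s = true}

/-- equivalence of rank `r` of the flaps `(M, a, D)` and `(M', a', D')` -/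
def FB (r : Rk) (M : St C) (a : List ℕ) (D : Set ℕ) (M' : St C) (a' : List ℕ) (D' : Set ℕ) :
    Prop :=
  a.length = a'.length ∧ bf M M' D D' r (a.zip a')

/-- `h` is an isomorphism of flaps -/
def FIh (h : ℕ → ℕ) (M : St C) (a : List ℕ) (D : Set ℕ) (M' : St C) (a' : List ℕ)
    (D' : Set ℕ) : Prop :=
  a.length = a'.length ∧ BijOn h D D' ∧
    ∀ x : List ℕ, (∀ z ∈ x, z ∈ D) → PI M M' (a.zip a' ++ x.map (fun z => (z, h z)))

/-- isomorphism of flaps -/
def FI (M : St C) (a : List ℕ) (D : Set ℕ) (M' : St C) (a' : List ℕ) (D' : Set ℕ) : Prop :=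
  ∃ h, FIh h M a D M' a' D'

/-- codes of flaps -/
abbrev Fl (C : Type) := St C × List ℕ × ℕ

/-- the underlying set of a coded flap -/
def Fl.set (t : Fl C) : Set ℕ := cp t.1 (ms t.2.1) t.2.2

/-- only countably many isomorphism types of flaps are equivalent of rank `r` to `(M, a, D)` -/
def small (c0 : C) (r : Rk) (M : St C) (a : List ℕ) (D : Set ℕ) : Prop :=
  ∃ T : Set (Fl C), T.Countable ∧ (∀ t ∈ T, Valid c0 t.1 ∧ t.2.2 ∉ t.2.1) ∧
    ∀ (N : St C) (b : List ℕ) (v : ℕ), Valid c0 N → v ∉ b → FB r M a D N b (cp N (ms b) v) →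
      ∃ t ∈ T, FI N b (cp N (ms b) v) t.1 t.2.1 t.set

/-- `v` lies in a very big component of `M - a` -/
def VB (c0 : C) (r : Rk) (M : St C) (a : List ℕ) (v : ℕ) : Prop :=
  v ∉ a ∧ ∀ e : List ℕ, (∀ z ∈ e, z ∈ cp M (ms a) v) →
    ∃ x ∈ cp M (ms a) v, x ∉ e ∧ ¬ small c0 r M (a ++ e) (cp M (ms (a ++ e)) x)

/-- smallness without marks -/
def Sm (c0 : C) (r : Rk) (M : St C) (D : Set ℕ) : Prop :=
  ∃ a : List ℕ, IsCp M (ms a) D ∧ small c0 r M a D

/-- isomorphism over `a` -/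
def IsoO (a : List ℕ) (M M' : St C) : Prop :=
  ∃ h : Equiv.Perm ℕ, (∀ z ∈ a, h z = z) ∧ (∀ u v, M.1 u v = M'.1 (h u) (h v)) ∧
    ∀ l : List ℕ, M.2 l = M'.2 (l.map h)

/-- isomorphism -/
def Iso (M M' : St C) : Prop := IsoO [] M M'

/-- directions: a component of `M - A` for every finite `A` -/
def IsDir (M : St C) (w : Set ℕ → Set ℕ) : Prop :=
  (∀ A : Set ℕ, A.Finite → IsCp M A (w A)) ∧
    ∀ A B : Set ℕ, B.Finite → A ⊆ B → w B ⊆ w A

/-- the vertices which dominate the direction -/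
def Dm (M : St C) (w : Set ℕ → Set ℕ) : Set ℕ :=
  {v | ∀ A : Set ℕ, A.Finite → v ∈ A → v ∈ Nb M (w A)}

/-- every direction is dominated by finitely many vertices only -/
def NoInfDom (M : St C) : Prop := ∀ w, IsDir M w → (Dm M w).Finite

/-- `S` is the closest smallest separator of the direction `w` behind `A` -/
def IsNext (M : St C) (w : Set ℕ → Set ℕ) (P A S : Set ℕ) : Prop :=
  S.Finite ∧ S ⊆ w A ∧ Disjoint (Nb M (w (A ∪ S))) (Nb M (w A) \ P) ∧
    ∀ B : Set ℕ, B.Finite → B ⊆ w A → Disjoint (Nb M (w (A ∪ B))) (Nb M (w A) \ P) →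
      S.ncard ≤ B.ncard ∧ (B.ncard = S.ncard → w (A ∪ B) ⊆ w (A ∪ S))

/-- the canonical sequence of separators towards a direction -/
structure CSeq (M : St C) (w : Set ℕ → Set ℕ) (P : Set ℕ) (A S : ℕ → Set ℕ) : Prop where
  dir : IsDir M w
  fin0 : (A 0).Finite
  P0 : P ⊆ A 0
  q0 : (Nb M (w (A 0)) \ P).Nonempty
  next : ∀ n, IsNext M w P (A n) (S n)
  succ : ∀ n, A (n + 1) = A n ∪ S n

/-- the components at level `n` -/
def Lev (M : St C) (w : Set ℕ → Set ℕ) (A : ℕ → Set ℕ) (n : ℕ) (D : Set ℕ) : Prop :=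
  IsCp M (A (n + 1)) D ∧ D ⊆ w (A n) ∧ D ≠ w (A (n + 1))

/-- end-pieces -/
def EndP (c0 : C) (r : Rk) (M : St C) (a : List ℕ) (D : Set ℕ) : Prop :=
  ∃ (w : Set ℕ → Set ℕ) (A S : ℕ → Set ℕ), CSeq M w (Dm M w) A S ∧ A 0 = ms a ∧
    w (A 0) = D ∧ (∀ n, ¬ Sm c0 r M (w (A n))) ∧ ∀ n D', Lev M w A n D' → Sm c0 r M D'

/-- tame flaps -/
def Tame (c0 : C) (r : Rk) (M : St C) (a : List ℕ) (D : Set ℕ) : Prop :=
  ∃ e : List ℕ, (∀ z ∈ e, z ∈ D) ∧ ∀ v ∈ D, v ∉ e →
    Sm c0 r M (cp M (ms (a ++ e)) v) ∨ EndP c0 r M (a ++ e) (cp M (ms (a ++ e)) v)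

/-- the flap is determined by its rank `d` type -/
def Rig (c0 : C) (d : Rk) (M : St C) (a : List ℕ) (D : Set ℕ) : Prop :=
  ∀ (N : St C) (b : List ℕ) (v : ℕ), Valid c0 N → v ∉ b →
    FB d M a D N b (cp N (ms b) v) → FI M a D N b (cp N (ms b) v)

open Classical in
/-- replacement of the components `D i`, `i ∈ y`, by the structures `R i` -/
noncomputable def repl (c0 : C) (M : St C) (a : ℕ → List ℕ) (D : ℕ → Set ℕ) (R : ℕ → St C)
    (y : Set ℕ) : St C :=
  (fun u v => if h : ∃ i, i ∈ y ∧ (u ∈ D i ∨ v ∈ D i) then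
      (if u ∈ D h.choose ∪ ms (a h.choose) ∧ v ∈ D h.choose ∪ ms (a h.choose)
        then (R h.choose).1 u v else false)
    else M.1 u v,
   fun l => if h : ∃ i, i ∈ y ∧ ∃ u ∈ l, u ∈ D i then
      (if ∀ u ∈ l, u ∈ D h.choose ∪ ms (a h.choose) then (R h.choose).2 l else c0)
    else M.2 l)

/-- admissible replacement data -/
structure RD (c0 : C) (M : St C) (a : ℕ → List ℕ) (D : ℕ → Set ℕ) (R : ℕ → St C)
    (y : Set ℕ) : Prop where
  val : Valid c0 M
  valR : ∀ i ∈ y, Valid c0 (R i)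
  cpM : ∀ i ∈ y, IsCp M (ms (a i)) (D i)
  cpR : ∀ i ∈ y, IsCp (R i) (ms (a i)) (D i)
  pi : ∀ i ∈ y, PI M (R i) (dg (a i))
  disj : ∀ i ∈ y, ∀ j ∈ y, i ≠ j → Disjoint (D i) (D j)
  disjA : ∀ i ∈ y, ∀ j ∈ y, Disjoint (ms (a i)) (D j)

/-- `X` is closed under equivalence of rank `r` -/
def Cl (r : Rk) (X : Set (St C)) : Prop :=
  ∀ M ∈ X, ∀ M' : St C, bf M M' univ univ r [] → M' ∈ X

/-- countably many types of every rank -/
def TC (X : Set (St C)) : Prop :=
  ∀ r : Rk, ∃ T : Set (St C × List ℕ), T.Countable ∧ (∀ t ∈ T, t.1 ∈ X) ∧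
    ∀ M ∈ X, ∀ x : List ℕ, ∃ t ∈ T, t.2.length = x.length ∧ bf M t.1 univ univ r (x.zip t.2)

/-- no perfect family of pointed structures in `X` -/
def NoFam [MeasurableSpace C] (X : Set (St C)) : Prop :=
  ∀ (f : (ℕ → Bool) → St C) (a : List ℕ), Measurable f → (∀ x, f x ∈ X) →
    ∃ x x', x ≠ x' ∧ IsoO a (f x) (f x')

/-- The hypotheses on the class `X` used in the combinatorial part. -/
structure Hyp [MeasurableSpace C] (c0 : C) (b : Rk) (X : Set (St C)) : Prop where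
  val : ∀ M ∈ X, Valid c0 M
  cl : Cl b X
  tc : TC X
  nf : NoFam X
  base : RLe C (Rk.lim (Rk.lim om)) b

end

end Pool.Agent.TK
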