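import Pool.Agent.H16.TK.Base

/-! Elementary facts on small and rigid flaps. -/

set_option autoImplicit false

open Set

namespace Pool.Agent.TK

variable {C : Type} {c0 : C} {M M' : St C} {a a' : List ℕ} {D D' : Set ℕ} {r s : Rk}

lemma small.fb (h : small c0 r M a D) (H : FB r M a D M' a' D') : small c0 r M' a' D' := by
  obtain ⟨T, hT, hv, h⟩ := h
  exact ⟨T, hT, hv, fun N b v hN hb hF => h N b v hN hb (H.trans hF)⟩

lemma small.fi (h : small c0 r M a D) (H : FI M a D M' a' D') : small c0 r M' a' D' :=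
  h.fb (H.fb r)

lemma small.rank (h : small c0 r M a D) (H : RLe C r s) : small c0 s M a D := by
  obtain ⟨T, hT, hv, h⟩ := h
  exact ⟨T, hT, hv, fun N b v hN hb hF => h N b v hN hb (hF.mono H)⟩

lemma Rig.small (h : Rig c0 r M a D) : small c0 r M a D := by
  by_cases H : ∃ (N : St C) (b : List ℕ) (v : ℕ), Valid c0 N ∧ v ∉ b ∧
    FB r M a D N b (cp N (ms b) v)
  · obtain ⟨N, b, v, hN, hb, hF⟩ := H
    refine ⟨{(N, b, v)}, countable_singleton _, by simpa using ⟨hN, hb⟩, ?_⟩
    intro N' b' v' hN' hb' hF'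
    exact ⟨_, rfl, (h N' b' v' hN' hb' hF').symm.trans (h N b v hN hb hF)⟩
  · refine ⟨∅, countable_empty, by simp, ?_⟩
    intro N' b' v' hN' hb' hF'
    exact absurd ⟨N', b', v', hN', hb', hF'⟩ H

lemma Rig.rank (h : Rig c0 r M a D) (H : RLe C r s) : Rig c0 s M a D :=
  fun N b v hN hb hF => h N b v hN hb (hF.mono H)

lemma Rig.fi (h : Rig c0 r M a D) (H : FI M a D M' a' D') : Rig c0 r M' a' D' :=
  fun N b v hN hb hF => H.symm.trans (h N b v hN hb ((H.fb r).trans hF))

end Pool.Agent.TK
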