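import Pool.Agent.H16.TK.Small

/-!
Statements of the modules. A module proves one of these propositions (possibly from others).
-/

set_option autoImplicit false

open Set

namespace Pool.Agent.TK

/-! ### Group A: back-and-forth -/

/-- CTR: connectivity inside the universes is preserved at rank `om`. -/
def CTR (C : Type) : Prop :=
  ∀ (M M' : St C) (U U' : Set ℕ) (p : List (ℕ × ℕ)) (a a' : List ℕ) (u u' v v' : ℕ),
    bf M M' U U' om p → a.length = a'.length → (∀ z ∈ a.zip a', z ∈ p) →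
    (u, u') ∈ p → (v, v') ∈ p → u' ∈ U' → v' ∈ U' →
    Conn M (Uᶜ ∪ ms a) u v → Conn M' (U'ᶜ ∪ ms a') u' v'

/-- REL: passing from tuples to components. -/
def REL (C : Type) : Prop :=
  ∀ (M M' : St C) (U U' : Set ℕ) (r : Rk) (p : List (ℕ × ℕ)) (a a' : List ℕ) (v v' : ℕ),
    bf M M' U U' (W r) p → a.length = a'.length → (∀ z ∈ a.zip a', z ∈ p) →
    (v, v') ∈ p → v ∉ a → cp M (ms a) v ⊆ U → cp M' (ms a') v' ⊆ U' →
    bf M M' (cp M (ms a) v) (cp M' (ms a') v') r p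

/-- FISUB: isomorphisms of flaps restrict to smaller flaps. -/
def FISUB (C : Type) (c0 : C) : Prop :=
  ∀ (M M' : St C) (a a' : List ℕ) (D D' : Set ℕ) (h : ℕ → ℕ), Valid c0 M → Valid c0 M' →
    IsCp M (ms a) D → IsCp M' (ms a') D' → FIh h M a D M' a' D' →
    ∀ e : List ℕ, (∀ z ∈ e, z ∈ D) → ∀ v ∈ D, v ∉ e →
      FIh h M (a ++ e) (cp M (ms (a ++ e)) v) M' (a' ++ e.map h)
        (cp M' (ms (a' ++ e.map h)) (h v))

/-- SCO: Scott's isomorphism theorem. -/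
def SCO (C : Type) : Prop :=
  ∀ (M : St C) (a : List ℕ) (D : Set ℕ), ∃ r : Rk, ∀ (M' : St C) (a' : List ℕ) (D' : Set ℕ),
    FB r M a D M' a' D' → FI M a D M' a' D'

/-- COMP: the composition lemma. -/
def COMP (C : Type) (c0 : C) : Prop :=
  ∀ (M M' : St C) (y : Set ℕ) (a : ℕ → List ℕ) (D : ℕ → Set ℕ) (r : Rk),
    Valid c0 M → Valid c0 M' →
    (∀ i ∈ y, ∀ j ∈ y, i ≠ j → Disjoint (D i) (D j)) →
    (∀ i ∈ y, ∀ j ∈ y, Disjoint (ms (a i)) (D j)) →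
    (∀ i ∈ y, Nb M (D i) ⊆ ms (a i)) → (∀ i ∈ y, Nb M' (D i) ⊆ ms (a i)) →
    (∀ u v, (∀ i ∈ y, u ∉ D i) → (∀ i ∈ y, v ∉ D i) → M.1 u v = M'.1 u v) →
    (∀ l : List ℕ, (∀ u ∈ l, ∀ i ∈ y, u ∉ D i) → M.2 l = M'.2 l) →
    (∀ i ∈ y, bf M M' (D i) (D i) r (dg (a i))) →
    ∀ (U : Set ℕ), (∀ i ∈ y, D i ⊆ U ∨ Disjoint (D i) U) →
    ∀ k : List ℕ, (∀ z ∈ k, ∀ i ∈ y, z ∉ D i) → bf M M' U U r (dg k)

/-- RPF: facts on the replaced structure. -/
def RPF (C : Type) (c0 : C) : Prop :=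
  ∀ (M : St C) (a : ℕ → List ℕ) (D : ℕ → Set ℕ) (R : ℕ → St C) (y : Set ℕ),
    RD c0 M a D R y →
    Valid c0 (repl c0 M a D R y) ∧
    (∀ u v, (∀ i ∈ y, u ∉ D i) → (∀ i ∈ y, v ∉ D i) → (repl c0 M a D R y).1 u v = M.1 u v) ∧
    (∀ l : List ℕ, (∀ u ∈ l, ∀ i ∈ y, u ∉ D i) → (repl c0 M a D R y).2 l = M.2 l) ∧
    (∀ i ∈ y, ∀ u ∈ D i ∪ ms (a i), ∀ v ∈ D i ∪ ms (a i),
      (repl c0 M a D R y).1 u v = (R i).1 u v) ∧
    (∀ i ∈ y, ∀ l : List ℕ, (∀ u ∈ l, u ∈ D i ∪ ms (a i)) →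
      (repl c0 M a D R y).2 l = (R i).2 l) ∧
    (∀ i ∈ y, IsCp (repl c0 M a D R y) (ms (a i)) (D i)) ∧
    (∀ i ∈ y, FI (repl c0 M a D R y) (a i) (D i) (R i) (a i) (D i))

/-- TRA: transport of an infinite flap to a given infinite set. -/
def TRA (C : Type) (c0 : C) : Prop :=
  ∀ (M N : St C) (a b : List ℕ) (D D' : Set ℕ), Valid c0 M → Valid c0 N →
    IsCp N (ms b) D' → D'.Infinite → D.Infinite → Disjoint D (ms a) → a.length = b.length →
    PI M N (a.zip b) →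
    ∃ R : St C, Valid c0 R ∧ IsCp R (ms a) D ∧ FI R a D N b D' ∧ PI M R (dg a)

/-- INF: equivalence of rank `om` preserves finiteness; finite flaps are rigid. -/
def INF (C : Type) : Prop :=
  ∀ (M M' : St C) (a a' : List ℕ) (D D' : Set ℕ), FB om M a D M' a' D' →
    (D.Infinite ↔ D'.Infinite) ∧ (D.Finite → FI M a D M' a' D')

/-- MEM: replacement stays in the class. -/
def MEM (C : Type) (c0 : C) : Prop :=
  ∀ (X : Set (St C)) (b : Rk), (∀ M ∈ X, Valid c0 M) → Cl b X → ∀ M ∈ X,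
    ∀ (a : ℕ → List ℕ) (D : ℕ → Set ℕ) (R : ℕ → St C) (y : Set ℕ), RD c0 M a D R y →
    (∀ i ∈ y, bf M (R i) (D i) (D i) b (dg (a i))) → repl c0 M a D R y ∈ X

/-- MEA: the family of all replacements is measurable. -/
def MEA (C : Type) (c0 : C) [MeasurableSpace C] : Prop :=
  ∀ (M : St C) (a : ℕ → List ℕ) (D : ℕ → Set ℕ) (R : ℕ → St C), RD c0 M a D R univ →
    ∀ φ : (ℕ → Bool) → Set ℕ, (∀ i, MeasurableSet {x | i ∈ φ x}) →
      Measurable (fun x => repl c0 M a D R (φ x))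

/-! ### Group B: small and big flaps -/

/-- RP1: replacement of one infinite flap by an equivalent one. -/
def RP1 (C : Type) (c0 : C) : Prop :=
  ∀ (r : Rk), RLe C om r → ∀ (M : St C) (b : List ℕ) (D' : Set ℕ), Valid c0 M →
    IsCp M (ms b) D' → D'.Infinite → ∀ (N : St C) (c : List ℕ) (v : ℕ), Valid c0 N → v ∉ c →
    FB r M b D' N c (cp N (ms c) v) →
    ∃ M' : St C, Valid c0 M' ∧ IsCp M' (ms b) D' ∧ FI M' b D' N c (cp N (ms c) v) ∧
      bf M M' D' D' r (dg b) ∧ Nb M' D' = Nb M D' ∧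
      (∀ u v, u ∉ D' → v ∉ D' → M'.1 u v = M.1 u v) ∧
      (∀ l : List ℕ, (∀ u ∈ l, u ∉ D') → M'.2 l = M.2 l) ∧
      ∀ (a : List ℕ) (D : Set ℕ), IsCp M (ms a) D → D' ⊆ D →
        IsCp M' (ms a) D ∧ bf M M' D D r (dg a)

/-- MSUB: smaller flaps of small flaps are small. -/
def MSUB (C : Type) (c0 : C) : Prop :=
  ∀ (r : Rk), RLe C om r → ∀ (M : St C) (a : List ℕ) (D : Set ℕ), Valid c0 M →
    IsCp M (ms a) D → small c0 r M a D → ∀ e : List ℕ, (∀ z ∈ e, z ∈ D) →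
    ∀ v ∈ D, v ∉ e → small c0 r M (a ++ e) (cp M (ms (a ++ e)) v)

/-- MMK: the marks do not matter. -/
def MMK (C : Type) (c0 : C) : Prop :=
  ∀ (r : Rk), RLe C om r → ∀ (M : St C) (a b : List ℕ) (D : Set ℕ), Valid c0 M →
    IsCp M (ms a) D → IsCp M (ms b) D → small c0 r M a D → small c0 r M b D

/-- MONO: a smaller flap of a small flap is small; the marks do not matter. -/
def MONO (C : Type) (c0 : C) : Prop :=
  ∀ (r : Rk), RLe C om r → ∀ (M : St C) (a b : List ℕ) (D D' : Set ℕ), Valid c0 M →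
    IsCp M (ms a) D → IsCp M (ms b) D' → D' ⊆ D → small c0 r M a D → small c0 r M b D'

/-- CNT: there are only countably many small flaps in members of `X`. -/
def CNT (C : Type) (c0 : C) : Prop :=
  ∀ (X : Set (St C)), (∀ M ∈ X, Valid c0 M) → TC X → ∀ r : Rk,
    ∃ T : Set (Fl C), T.Countable ∧ (∀ t ∈ T, Valid c0 t.1 ∧ t.2.2 ∉ t.2.1) ∧
      ∀ M ∈ X, ∀ (a : List ℕ) (v : ℕ), v ∉ a → small c0 r M a (cp M (ms a) v) →
        ∃ t ∈ T, FI M a (cp M (ms a) v) t.1 t.2.1 t.set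

/-- EXN: a big flap can be replaced by a flap which is new for a given countable set. -/
def EXN (C : Type) (c0 : C) [MeasurableSpace C] : Prop :=
  ∀ (X : Set (St C)) (b : Rk), Hyp c0 b X → ∀ M ∈ X, ∀ (a : List ℕ) (D : Set ℕ),
    IsCp M (ms a) D → ¬ small c0 b M a D →
    ∀ T : Set (Fl C), T.Countable → (∀ t ∈ T, Valid c0 t.1 ∧ t.2.2 ∉ t.2.1) →
    ∃ R : St C, Valid c0 R ∧ IsCp R (ms a) D ∧ PI M R (dg a) ∧ bf M R D D b (dg a) ∧
      ∀ t ∈ T, ¬ FI R a D t.1 t.2.1 t.set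

/-- EXB: a big flap can be replaced by a flap which is big for a given rank. -/
def EXB (C : Type) (c0 : C) [MeasurableSpace C] : Prop :=
  ∀ (X : Set (St C)) (b : Rk), Hyp c0 b X → ∀ M ∈ X, ∀ (a : List ℕ) (D : Set ℕ),
    IsCp M (ms a) D → ¬ small c0 b M a D → ∀ r : Rk,
    ∃ R : St C, Valid c0 R ∧ IsCp R (ms a) D ∧ PI M R (dg a) ∧ bf M R D D b (dg a) ∧
      ¬ small c0 r R a D

/-- FINB: only finitely many big components behind a finite tuple. -/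
def FINB (C : Type) (c0 : C) [MeasurableSpace C] : Prop :=
  ∀ (X : Set (St C)) (b : Rk), Hyp c0 b X → ∀ M ∈ X, ∀ a : List ℕ,
    {D : Set ℕ | IsCp M (ms a) D ∧ ¬ small c0 b M a D}.Finite

/-! ### Group G: graphs and directions -/

/-- DIR: a decreasing sequence of connected sets with empty intersection is a direction. -/
def DIR (C : Type) (c0 : C) : Prop :=
  ∀ (M : St C), Valid c0 M → ∀ E : ℕ → Set ℕ, (∀ n, E (n + 1) ⊆ E n) → (∀ n, Cd M (E n)) →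
    (⋂ n, E n) = ∅ →
    ∃ w, IsDir M w ∧ ∀ B : Set ℕ, B.Finite → ∀ n, Disjoint B (E n) → E n ⊆ w B

/-- NEX: existence of the closest smallest separator. -/
def NEX (C : Type) (c0 : C) : Prop :=
  ∀ (M : St C), Valid c0 M → ∀ w, IsDir M w → ∀ P A : Set ℕ, A.Finite → P ⊆ A →
    Dm M w ⊆ P → ∃ S, IsNext M w P A S

/-- NUN: its uniqueness. -/
def NUN (C : Type) (c0 : C) : Prop :=
  ∀ (M : St C), Valid c0 M → ∀ w, IsDir M w → ∀ P A S S' : Set ℕ, A.Finite → P ⊆ A →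
    IsNext M w P A S → IsNext M w P A S' → S = S'

/-- NFA: facts on the canonical sequence. -/
def NFA (C : Type) (c0 : C) : Prop :=
  ∀ (M : St C), Valid c0 M → ∀ w P A S, CSeq M w P A S →
    (∀ n, (A n).Finite ∧ P ⊆ A n ∧ (S n).Finite ∧ (S n).Nonempty ∧ S n ⊆ w (A n) ∧
      Disjoint (S n) (A n) ∧ w (A (n + 1)) ⊆ w (A n) ∧ Disjoint (S n) (w (A (n + 1))) ∧
      Nb M (w (A (n + 1))) \ P = S n ∧ Nb M (w (A n)) ⊆ A n) ∧
    (∀ m n, m ≠ n → Disjoint (S m) (S n)) ∧ (∀ v, ∃ n, v ∉ w (A n))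

/-- BAS: a good base. -/
def BAS (C : Type) (c0 : C) : Prop :=
  ∀ (M : St C), Valid c0 M → ∀ w, IsDir M w → (Dm M w).Finite → ∀ B : Set ℕ, B.Finite →
    ∃ A0 : Set ℕ, A0.Finite ∧ B ⊆ A0 ∧ Dm M w ⊆ A0 ∧ (Nb M (w A0) \ Dm M w).Nonempty

/-- CSX: the canonical sequence exists. -/
def CSX (C : Type) (c0 : C) : Prop :=
  ∀ (M : St C), Valid c0 M → ∀ w, IsDir M w → ∀ P A0 : Set ℕ, A0.Finite → P ⊆ A0 →
    Dm M w ⊆ P → (Nb M (w A0) \ P).Nonempty → ∃ A S, CSeq M w P A S ∧ A 0 = A0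

/-- RST: restart of the canonical sequence at step `k` with other marks. -/
def RST (C : Type) (c0 : C) : Prop :=
  ∀ (M : St C), Valid c0 M → ∀ w P A S, CSeq M w P A S → ∀ (k : ℕ) (A' : Set ℕ),
    A'.Finite → P ⊆ A' → w A' = w (A k) →
    ∃ A'' S'', CSeq M w P A'' S'' ∧ A'' 0 = A' ∧ (∀ n, w (A'' n) = w (A (k + n))) ∧
      ∀ n D, Lev M w A'' n D ↔ Lev M w A (k + n) D

/-! ### Group L: the level lemma -/

/-- data for the proof of the level lemma -/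
structure LD {C : Type} [MeasurableSpace C] (c0 : C) (b : Rk) (X : Set (St C)) (M : St C)
    (w : Set ℕ → Set ℕ) (A S : ℕ → Set ℕ) (k : ℕ → ℕ) (a : ℕ → List ℕ) (D : ℕ → Set ℕ)
    (R : ℕ → St C) (r : ℕ → Rk) : Prop where
  hyp : Hyp c0 b X
  hM : M ∈ X
  cs : CSeq M w (Dm M w) A S
  mono : StrictMono k
  msa : ∀ i, ms (a i) = A (k i + 1)
  lev : ∀ i, Lev M w A (k i) (D i)
  valR : ∀ i, Valid c0 (R i)
  cpR : ∀ i, IsCp (R i) (ms (a i)) (D i)
  pi : ∀ i, PI M (R i) (dg (a i))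
  bfR : ∀ i, bf M (R i) (D i) (D i) b (dg (a i))
  big : ∀ i, ¬ small c0 (r i) (R i) (a i) (D i)
  rle : ∀ i, RLe C (r i) (r (i + 1))
  rb : RLe C b (r 0)
  r0 : ∀ (a' : List ℕ) (v : ℕ), v ∉ a' → small c0 (r 0) M a' (cp M (ms a') v)
  rs : ∀ i, ∀ s : Set ℕ, (∀ j ∈ s, j ≤ i) → ∀ (a' : List ℕ) (v : ℕ), v ∉ a' →
    small c0 (r (i + 1)) (repl c0 M a D R s) a' (cp (repl c0 M a D R s) (ms a') v)

/-- LDR: the data are admissible. -/
def LDR (C : Type) (c0 : C) [MeasurableSpace C] : Prop :=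
  ∀ (b : Rk) (X : Set (St C)) M w A S k a D R r, LD c0 b X M w A S k a D R r →
    RD c0 M a D R univ

/-- LDX: existence of the data. -/
def LDX (C : Type) (c0 : C) [MeasurableSpace C] : Prop :=
  ∀ (b : Rk) (X : Set (St C)), Hyp c0 b X → ∀ M ∈ X, ∀ w A S, CSeq M w (Dm M w) A S →
    (∀ n0, ∃ n, n0 ≤ n ∧ ∃ D, Lev M w A n D ∧ ¬ Sm c0 b M D) →
    ∃ k a D R r, LD c0 b X M w A S k a D R r

/-- LRF: the replaced structures have the same sides of the canonical separators. -/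
def LRF (C : Type) (c0 : C) [MeasurableSpace C] : Prop :=
  ∀ (b : Rk) (X : Set (St C)) M w A S k a D R r, LD c0 b X M w A S k a D R r →
    ∀ y : Set ℕ, (∀ n, IsCp (repl c0 M a D R y) (A n) (w (A n))) ∧
      (∀ n, Nb (repl c0 M a D R y) (w (A n)) = Nb M (w (A n))) ∧
      (∀ k' : List ℕ, (∀ z ∈ k', ∀ i ∈ y, z ∉ D i) →
        bf M (repl c0 M a D R y) univ univ b (dg k'))

/-- LDD: the direction of the replaced structure. -/
def LDD (C : Type) (c0 : C) [MeasurableSpace C] : Prop :=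
  ∀ (b : Rk) (X : Set (St C)) M w A S k a D R r, LD c0 b X M w A S k a D R r →
    ∀ y : Set ℕ, ∃ w', IsDir (repl c0 M a D R y) w' ∧
      (∀ B : Set ℕ, B.Finite → ∀ n, Disjoint B (w (A n)) → w (A n) ⊆ w' B) ∧
      (∀ n, w' (A n) = w (A n)) ∧ Dm (repl c0 M a D R y) w' = Dm M w

/-- LNX: the canonical separators are the same. -/
def LNX (C : Type) (c0 : C) [MeasurableSpace C] : Prop :=
  ∀ (b : Rk) (X : Set (St C)) M w A S k a D R r, LD c0 b X M w A S k a D R r →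
    ∀ (y : Set ℕ) (w' : Set ℕ → Set ℕ), IsDir (repl c0 M a D R y) w' →
      (∀ B : Set ℕ, B.Finite → ∀ n, Disjoint B (w (A n)) → w (A n) ⊆ w' B) →
      (∀ n, w' (A n) = w (A n)) →
      ∀ n, IsNext (repl c0 M a D R y) w' (Dm M w) (A n) (S n)

/-- LUN: the direction is the only one with big components of all ranks `r i`. -/
def LUN (C : Type) (c0 : C) [MeasurableSpace C] : Prop :=
  ∀ (b : Rk) (X : Set (St C)) M w A S k a D R r, LD c0 b X M w A S k a D R r →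
    ∀ (y : Set ℕ) (w' : Set ℕ → Set ℕ), y.Infinite → IsDir (repl c0 M a D R y) w' →
      (∀ B : Set ℕ, B.Finite → ∀ n, Disjoint B (w (A n)) → w (A n) ⊆ w' B) →
      (∀ B : Set ℕ, B.Finite → ∀ i, ¬ Sm c0 (r i) (repl c0 M a D R y) (w' B)) ∧
      ∀ w'', IsDir (repl c0 M a D R y) w'' →
        (∀ B : Set ℕ, B.Finite → ∀ i, ¬ Sm c0 (r i) (repl c0 M a D R y) (w'' B)) →
        ∀ B : Set ℕ, B.Finite → w'' B = w' B

/-- LDE: decoding. -/
def LDE (C : Type) (c0 : C) [MeasurableSpace C] : Prop :=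
  ∀ (b : Rk) (X : Set (St C)) M w A S k a D R r, LD c0 b X M w A S k a D R r →
    ∀ a0 : List ℕ, ms a0 = A 0 → ∀ y z : Set ℕ, y.Infinite → z.Infinite →
      IsoO a0 (repl c0 M a D R y) (repl c0 M a D R z) → y ⊆ z

/-- LEVEL: the level lemma. -/
def LEVEL (C : Type) (c0 : C) [MeasurableSpace C] : Prop :=
  ∀ (b : Rk) (X : Set (St C)), Hyp c0 b X → ∀ M ∈ X, ∀ w A S, CSeq M w (Dm M w) A S →
    ∃ n0, ∀ n, n0 ≤ n → ∀ D, Lev M w A n D → Sm c0 b M D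

/-! ### Group T: tame decomposition -/

/-- EPM: marks of end-pieces. -/
def EPM (C : Type) (c0 : C) : Prop :=
  ∀ (b : Rk) (M : St C), Valid c0 M → ∀ (a a' : List ℕ) (D : Set ℕ), EndP c0 b M a D →
    ms a ⊆ ms a' → Disjoint D (ms a') → EndP c0 b M a' D

/-- SPL: a flap which is not tame contains such flaps behind every finite set. -/
def SPL (C : Type) (c0 : C) [MeasurableSpace C] : Prop :=
  ∀ (b : Rk) (X : Set (St C)), Hyp c0 b X → ∀ M ∈ X, ∀ (a : List ℕ) (D : Set ℕ),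
    IsCp M (ms a) D → ¬ Tame c0 b M a D → ∀ e : List ℕ, (∀ z ∈ e, z ∈ D) →
    ∃ v ∈ D, v ∉ e ∧ ¬ Tame c0 b M (a ++ e) (cp M (ms (a ++ e)) v)

/-- TAM: everything is tame. -/
def TAM (C : Type) (c0 : C) [MeasurableSpace C] : Prop :=
  ∀ (b : Rk) (X : Set (St C)), Hyp c0 b X → ∀ M ∈ X, NoInfDom M →
    ∀ (a : List ℕ) (D : Set ℕ), IsCp M (ms a) D → Tame c0 b M a D

/-! ### Group E: rigidity -/

/-- GLU: gluing isomorphisms of components. -/
def GLU (C : Type) (c0 : C) : Prop :=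
  ∀ (d : Rk) (M M' : St C) (a a' : List ℕ) (U U' : Set ℕ), Valid c0 M → Valid c0 M' →
    a.length = a'.length →
    (∀ v ∈ U, v ∉ a ∧ cp M (ms a) v ⊆ U) → (∀ v ∈ U', v ∉ a' ∧ cp M' (ms a') v ⊆ U') →
    bf M M' U U' (Rk.lim (W d)) (a.zip a') →
    (∀ v ∈ U, Rig c0 d M a (cp M (ms a) v)) → FI M a U M' a' U'

/-- RSM: small flaps are uniformly rigid. -/
def RSM (C : Type) (c0 : C) : Prop :=
  ∀ (X : Set (St C)), (∀ M ∈ X, Valid c0 M) → TC X → ∀ b : Rk, ∃ d : Rk, RLe C b d ∧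
    ∀ M ∈ X, ∀ (a : List ℕ) (v : ℕ), v ∉ a → small c0 b M a (cp M (ms a) v) →
      Rig c0 d M a (cp M (ms a) v)

/-- EVB: in an end-piece the direction is given by the very big components. -/
def EVB (C : Type) (c0 : C) : Prop :=
  ∀ (b : Rk) (M : St C) (w : Set ℕ → Set ℕ) (A S : ℕ → Set ℕ) (a : List ℕ) (D : Set ℕ),
    RLe C om b → Valid c0 M → CSeq M w (Dm M w) A S → A 0 = ms a → w (A 0) = D →
    (∀ n, ¬ Sm c0 b M (w (A n))) → (∀ n D', Lev M w A n D' → Sm c0 b M D') →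
    ∀ e : List ℕ, (∀ z ∈ e, z ∈ D) → ∀ v ∈ D, v ∉ e →
      (VB c0 b M (a ++ e) v ↔ v ∈ w (ms (a ++ e)))

/-- VBT: transfer of very big components. -/
def VBT (C : Type) (c0 : C) : Prop :=
  ∀ (b : Rk), RLe C om b → ∀ (M M' : St C) (U U' : Set ℕ) (p : List (ℕ × ℕ)) (a a' : List ℕ)
    (v v' : ℕ), Valid c0 M → Valid c0 M' → bf M M' U U' (Rk.lim (W b)) p →
    a.length = a'.length → (∀ z ∈ a.zip a', z ∈ p) → (v, v') ∈ p → v ∉ a →
    cp M (ms a) v ⊆ U → cp M' (ms a') v' ⊆ U' → VB c0 b M a v → VB c0 b M' a' v'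

/-- Transfer property of directions at rank `s`. -/
def TP {C : Type} (s : Rk) (M N : St C) (w w' : Set ℕ → Set ℕ) (a a' : List ℕ)
    (D D' : Set ℕ) : Prop :=
  ∀ (e e' : List ℕ) (v v' : ℕ), e.length = e'.length → (∀ z ∈ e, z ∈ D) →
    (∀ z ∈ e', z ∈ D') → v ∈ D → v' ∈ D' → v ∉ e → v' ∉ e' →
    bf M N D D' s ((v, v') :: (e.zip e' ++ a.zip a')) →
    (v ∈ w (ms (a ++ e)) ↔ v' ∈ w' (ms (a' ++ e')))

/-- EDR: the direction of an equivalent flap. -/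
def EDR (C : Type) (c0 : C) : Prop :=
  ∀ (b : Rk) (M : St C) (w : Set ℕ → Set ℕ) (A S : ℕ → Set ℕ) (a : List ℕ) (D : Set ℕ),
    RLe C om b → Valid c0 M → CSeq M w (Dm M w) A S → A 0 = ms a → w (A 0) = D →
    (∀ n, ¬ Sm c0 b M (w (A n))) → (∀ n D', Lev M w A n D' → Sm c0 b M D') →
    ∀ (N : St C) (a' : List ℕ) (D' : Set ℕ), Valid c0 N → IsCp N (ms a') D' →
      FB (Rk.lim (Rk.lim (Rk.lim (W b)))) M a D N a' D' →
      ∃ w', IsDir N w' ∧ w' (ms a') = D' ∧ TP (Rk.lim (W b)) M N w w' a a' D D'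

/-- ENX: transfer of the canonical separator. -/
def ENX (C : Type) (c0 : C) : Prop :=
  ∀ (s : Rk), RLe C om s → ∀ (M N : St C) (w w' : Set ℕ → Set ℕ) (a a' : List ℕ)
    (D D' : Set ℕ), Valid c0 M → Valid c0 N → IsDir M w → IsDir N w' → w (ms a) = D →
    w' (ms a') = D' → a.length = a'.length → TP s M N w w' a a' D D' →
    ∀ (P P' : Set ℕ), P ⊆ ms a → P' ⊆ ms a' → (∀ z ∈ a.zip a', (z.1 ∈ P ↔ z.2 ∈ P')) →
    ∀ (e e' x x' : List ℕ), e.length = e'.length → x.length = x'.length →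
      (∀ z ∈ e, z ∈ D) → (∀ z ∈ e', z ∈ D') → (∀ z ∈ x, z ∈ D) → (∀ z ∈ x', z ∈ D') →
      bf M N D D' (Rk.lim (Rk.lim s)) (x.zip x' ++ (e.zip e' ++ a.zip a')) →
      IsNext M w P (ms (a ++ e)) (ms x) → IsNext N w' P' (ms (a' ++ e')) (ms x')

/-- concatenation of the first `n` lists -/
def cc (s : ℕ → List ℕ) : ℕ → List ℕ
  | 0 => []
  | n + 1 => cc s n ++ s n

/-- EKO: a coherent sequence of finite bijections (Koenig's lemma). -/
def EKO (C : Type) (c0 : C) : Prop :=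
  ∀ (s ρ : Rk), RLe C om s → RLe C (Rk.lim (Rk.lim s)) ρ →
  ∀ (M N : St C) (w w' : Set ℕ → Set ℕ) (a a' : List ℕ)
    (D D' : Set ℕ), Valid c0 M → Valid c0 N → IsDir N w' → w (ms a) = D →
    w' (ms a') = D' → TP s M N w w' a a' D D' → FB (Rk.lim ρ) M a D N a' D' →
    ∀ (P : Set ℕ) (A S : ℕ → Set ℕ) (q : ℕ → List ℕ), CSeq M w P A S → A 0 = ms a →
      (∀ n, ms (q n) = S n) →
      ∃ t : ℕ → List ℕ, (∀ n, (t n).length = (q n).length) ∧ (∀ n, ∀ z ∈ t n, z ∈ D') ∧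
        ∀ n, bf M N D D' ρ ((cc q n).zip (cc t n) ++ a.zip a')

/-- EGL: the coherent sequence gives an isomorphism. -/
def EGL (C : Type) (c0 : C) : Prop :=
  ∀ (s ρ d : Rk), RLe C om s → RLe C (Rk.lim (Rk.lim s)) ρ →
    RLe C (Sh s (Rk.lim (W d))) ρ →
  ∀ (M N : St C) (w w' : Set ℕ → Set ℕ) (a a' : List ℕ)
    (D D' : Set ℕ), Valid c0 M → Valid c0 N → IsDir N w' → w (ms a) = D →
    w' (ms a') = D' → a.length = a'.length → TP s M N w w' a a' D D' →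
    ∀ (P : Set ℕ) (A S : ℕ → Set ℕ) (q t : ℕ → List ℕ), CSeq M w P A S → A 0 = ms a →
      (∀ n, ms (q n) = S n) → (∀ n, (t n).length = (q n).length) →
      (∀ n, ∀ z ∈ t n, z ∈ D') →
      (∀ n, bf M N D D' ρ ((cc q n).zip (cc t n) ++ a.zip a')) →
      (∀ n D1, Lev M w A n D1 → ∀ e : List ℕ, IsCp M (ms e) D1 → Rig c0 d M e D1) →
      FI M a D N a' D'

/-- REN: end-pieces are uniformly rigid. -/
def REN (C : Type) (c0 : C) [MeasurableSpace C] : Prop :=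
  ∀ (b : Rk) (X : Set (St C)), Hyp c0 b X → ∃ d : Rk, ∀ M ∈ X, ∀ (a : List ℕ) (D : Set ℕ),
    IsCp M (ms a) D → EndP c0 b M a D → Rig c0 d M a D

/-- RTA: tame flaps are uniformly rigid. -/
def RTA (C : Type) (c0 : C) [MeasurableSpace C] : Prop :=
  ∀ (b : Rk) (X : Set (St C)), Hyp c0 b X → ∃ d : Rk, ∀ M ∈ X, ∀ (a : List ℕ) (D : Set ℕ),
    IsCp M (ms a) D → Tame c0 b M a D → Rig c0 d M a D

/-- CORE: the combinatorial theorem. -/
def CORE (C : Type) (c0 : C) [MeasurableSpace C] : Prop :=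
  ∀ (b : Rk) (X : Set (St C)), Hyp c0 b X → ∃ T : Set (St C), T.Countable ∧
    ∀ M ∈ X, NoInfDom M → ∃ N ∈ T, Iso M N

/-! ### Group D: descriptive set theory -/

/-- perfectly many isomorphism types -/
def Perf {C : Type} [MeasurableSpace C] (X : Set (St C)) : Prop :=
  ∃ f : (ℕ → Bool) → St C, Measurable f ∧ (∀ x, f x ∈ X) ∧ ∀ x x', x ≠ x' → ¬ Iso (f x) (f x')

/-- LOP: invariant Borel sets are closed under some countable rank (Lopez-Escobar). -/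
def LOP (C : Type) [MeasurableSpace C] : Prop :=
  ∀ X : Set (St C), MeasurableSet X → (∀ M ∈ X, ∀ N, Iso M N → N ∈ X) → ∃ b : Rk, Cl b X

/-- NFM: perfect families of pointed structures. -/
def NFM (C : Type) [MeasurableSpace C] : Prop :=
  ∀ X : Set (St C), ¬ Perf X → NoFam X

/-- TYC: countably many types of every rank. -/
def TYC (C : Type) [MeasurableSpace C] : Prop :=
  ∀ X : Set (St C), MeasurableSet X → (∀ M ∈ X, ∀ N, Iso M N → N ∈ X) → ¬ Perf X → TC X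

end Pool.Agent.TK
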