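import Pool.Agent.H16.TK.Stmt

/-!
Further statements (intermediate steps and the final theorem).
-/

set_option autoImplicit false

open Set

namespace Pool.Agent.TK

/-! ### steps for SCO -/

/-- SC1: a rank which decides equivalence inside one flap. -/
def SC1 (C : Type) : Prop :=
  ∀ (M : St C) (a : List ℕ) (D : Set ℕ), ∃ r0 : Rk, ∀ p : List (ℕ × ℕ),
    (∀ z ∈ p, z.1 ∈ D ∪ ms a ∧ z.2 ∈ D ∪ ms a) → bf M M D D r0 p → ∀ r, bf M M D D r p

/-- SC2: zig-zag. -/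
def SC2 (C : Type) : Prop :=
  ∀ (M M' : St C) (D D' : Set ℕ) (Q : List (ℕ × ℕ) → Prop) (p0 : List (ℕ × ℕ)), Q p0 →
    (∀ p, Q p → PI M M' p) → (∀ p, Q p → ∀ c ∈ D, ∃ d ∈ D', Q ((c, d) :: p)) →
    (∀ p, Q p → ∀ d ∈ D', ∃ c ∈ D, Q ((c, d) :: p)) →
    ∃ h : ℕ → ℕ, BijOn h D D' ∧ ∀ x : List ℕ, (∀ z ∈ x, z ∈ D) →
      PI M M' (p0 ++ x.map (fun z => (z, h z)))

/-! ### steps for the canonical separators -/

/-- admissible separators -/
def Adm {C : Type} (M : St C) (w : Set ℕ → Set ℕ) (P A B : Set ℕ) : Prop :=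
  B.Finite ∧ B ⊆ w A ∧ Disjoint (Nb M (w (A ∪ B))) (Nb M (w A) \ P)

/-- NE1: there is an admissible separator. -/
def NE1 (C : Type) (c0 : C) : Prop :=
  ∀ (M : St C), Valid c0 M → ∀ w, IsDir M w → ∀ P A : Set ℕ, A.Finite → P ⊆ A →
    Dm M w ⊆ P → ∃ B, Adm M w P A B

/-- NMI: a smallest admissible separator is a neighbourhood. -/
def NMI (C : Type) (c0 : C) : Prop :=
  ∀ (M : St C), Valid c0 M → ∀ w, IsDir M w → ∀ P A B : Set ℕ, A.Finite → Adm M w P A B →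
    (∀ B', Adm M w P A B' → B.ncard ≤ B'.ncard) → B = Nb M (w (A ∪ B)) ∩ w A

/-- UNC: uncrossing of smallest admissible separators. -/
def UNC (C : Type) (c0 : C) : Prop :=
  ∀ (M : St C), Valid c0 M → ∀ w, IsDir M w → ∀ P A B1 B2 : Set ℕ, A.Finite →
    Adm M w P A B1 → Adm M w P A B2 → (∀ B', Adm M w P A B' → B1.ncard ≤ B'.ncard) →
    B2.ncard = B1.ncard →
    ∃ B3, Adm M w P A B3 ∧ B3.ncard = B1.ncard ∧ w (A ∪ B3) = w (A ∪ B1) ∪ w (A ∪ B2)

/-- PTH: a path is finite. -/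
def PTH (C : Type) (c0 : C) : Prop :=
  ∀ (M : St C), Valid c0 M → ∀ (D : Set ℕ) (v q : ℕ), Conn M Dᶜ v q →
    ∃ F : Set ℕ, F.Finite ∧ F ⊆ D ∧ ∀ E : Set ℕ, v ∈ E → q ∉ E → (Nb M E ∩ F).Nonempty

/-! ### transport by isomorphisms of whole structures -/

/-- `h` is an isomorphism of `M` and `N` -/
def IsoH {C : Type} (h : Equiv.Perm ℕ) (M N : St C) : Prop :=
  (∀ u v, M.1 u v = N.1 (h u) (h v)) ∧ ∀ l : List ℕ, M.2 l = N.2 (l.map h)

/-- ITR: everything is transported. -/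
def ITR (C : Type) (c0 : C) : Prop :=
  ∀ (h : Equiv.Perm ℕ) (M N : St C), IsoH h M N →
    (∀ A D, IsCp M A D → IsCp N (h '' A) (h '' D)) ∧
    (∀ D, Nb N (h '' D) = h '' Nb M D) ∧
    (∀ (a : List ℕ) D, FI M a D N (a.map h) (h '' D)) ∧
    (∀ r D, Sm c0 r M D → Sm c0 r N (h '' D))

/-! ### steps for TAM -/

/-- TA1: a decreasing sequence of flaps which are not tame. -/
def TA1 (C : Type) (c0 : C) [MeasurableSpace C] : Prop :=
  ∀ (b : Rk) (X : Set (St C)), Hyp c0 b X → ∀ M ∈ X, ∀ (a : List ℕ) (D : Set ℕ),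
    IsCp M (ms a) D → ¬ Tame c0 b M a D →
    ∃ (E : ℕ → Set ℕ) (l : ℕ → List ℕ), (∀ n, IsCp M (ms (l n)) (E n) ∧
      ¬ Tame c0 b M (l n) (E n) ∧ E (n + 1) ⊆ E n) ∧ (⋂ n, E n) = ∅

/-- TA2: if the high levels are small then every late flap is tame. -/
def TA2 (C : Type) (c0 : C) : Prop :=
  ∀ (b : Rk), RLe C om b → ∀ (M : St C), Valid c0 M → ∀ w A S, CSeq M w (Dm M w) A S →
    ∀ n0, (∀ n, n0 ≤ n → ∀ D, Lev M w A n D → Sm c0 b M D) →
    ∀ (l : List ℕ) (D : Set ℕ), IsCp M (ms l) D → D ⊆ w (A n0) → w (ms l) = D →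
      Tame c0 b M l D

/-! ### steps for GLU -/

/-- GLA: a bijection of the components which preserves the rank `d` types. -/
def GLA (C : Type) (c0 : C) : Prop :=
  ∀ (d : Rk) (M M' : St C) (a a' : List ℕ) (U U' : Set ℕ), Valid c0 M → Valid c0 M' →
    a.length = a'.length →
    (∀ v ∈ U, v ∉ a ∧ cp M (ms a) v ⊆ U) → (∀ v ∈ U', v ∉ a' ∧ cp M' (ms a') v ⊆ U') →
    bf M M' U U' (Rk.lim (W d)) (a.zip a') →
    ∃ F : Set ℕ → Set ℕ,
      BijOn F {D | ∃ v ∈ U, D = cp M (ms a) v} {D | ∃ v ∈ U', D = cp M' (ms a') v} ∧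
      ∀ v ∈ U, FB d M a (cp M (ms a) v) M' a' (F (cp M (ms a) v))

/-- GLB: gluing. -/
def GLB (C : Type) (c0 : C) : Prop :=
  ∀ (M M' : St C) (a a' : List ℕ) (U U' : Set ℕ), Valid c0 M → Valid c0 M' →
    a.length = a'.length →
    (∀ v ∈ U, v ∉ a ∧ cp M (ms a) v ⊆ U) → (∀ v ∈ U', v ∉ a' ∧ cp M' (ms a') v ⊆ U') →
    PI M M' (a.zip a') →
    ∀ F : Set ℕ → Set ℕ,
      BijOn F {D | ∃ v ∈ U, D = cp M (ms a) v} {D | ∃ v ∈ U', D = cp M' (ms a') v} →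
      (∀ v ∈ U, FI M a (cp M (ms a) v) M' a' (F (cp M (ms a) v))) → FI M a U M' a' U'

/-! ### steps for EGL -/

/-- the image of `P` -/
def img (a a' : List ℕ) (P : Set ℕ) : Set ℕ := {y | ∃ x ∈ P, (x, y) ∈ a.zip a'}

/-- EGA: the transferred sequence is the canonical sequence of `N`. -/
def EGA (C : Type) (c0 : C) : Prop :=
  ∀ (s ρ : Rk), RLe C om s → RLe C (Rk.lim (Rk.lim s)) ρ →
  ∀ (M N : St C) (w w' : Set ℕ → Set ℕ) (a a' : List ℕ)
    (D D' : Set ℕ), Valid c0 M → Valid c0 N → IsDir N w' → w (ms a) = D →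
    w' (ms a') = D' → a.length = a'.length → TP s M N w w' a a' D D' →
    ∀ (P : Set ℕ) (A S : ℕ → Set ℕ) (q t : ℕ → List ℕ), CSeq M w P A S → A 0 = ms a →
      (∀ n, ms (q n) = S n) → (∀ n, (t n).length = (q n).length) →
      (∀ n, ∀ z ∈ t n, z ∈ D') →
      (∀ n, bf M N D D' ρ ((cc q n).zip (cc t n) ++ a.zip a')) →
      CSeq N w' (img a a' P) (fun n => ms (a' ++ cc t n)) (fun n => ms (t n))

/-- EGB: the levels are isomorphic. -/
def EGB (C : Type) (c0 : C) : Prop :=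
  ∀ (s ρ d : Rk), RLe C om s → RLe C (Sh s (Rk.lim (W d))) ρ →
  ∀ (M N : St C) (w w' : Set ℕ → Set ℕ) (a a' : List ℕ)
    (D D' : Set ℕ), Valid c0 M → Valid c0 N → w (ms a) = D →
    w' (ms a') = D' → a.length = a'.length → TP s M N w w' a a' D D' →
    ∀ (P P' : Set ℕ) (A S : ℕ → Set ℕ) (q t : ℕ → List ℕ), CSeq M w P A S → A 0 = ms a →
      (∀ n, ms (q n) = S n) → (∀ n, (t n).length = (q n).length) →
      CSeq N w' P' (fun n => ms (a' ++ cc t n)) (fun n => ms (t n)) →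
      (∀ n, bf M N D D' ρ ((cc q n).zip (cc t n) ++ a.zip a')) →
      (∀ n D1, Lev M w A n D1 → ∀ e : List ℕ, IsCp M (ms e) D1 → Rig c0 d M e D1) →
      ∀ n, FI M (a ++ cc q (n + 1)) (w (A n) \ (S n ∪ w (A (n + 1))))
        N (a' ++ cc t (n + 1))
        (w' (ms (a' ++ cc t n)) \ (ms (t n) ∪ w' (ms (a' ++ cc t (n + 1)))))

/-- EGC: gluing the levels. -/
def EGC (C : Type) (c0 : C) : Prop :=
  ∀ (M N : St C) (w w' : Set ℕ → Set ℕ) (a a' : List ℕ)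
    (D D' P P' : Set ℕ) (A S : ℕ → Set ℕ) (q t : ℕ → List ℕ), Valid c0 M → Valid c0 N →
    w (ms a) = D → w' (ms a') = D' → a.length = a'.length →
    CSeq M w P A S → A 0 = ms a →
    (∀ n, ms (q n) = S n) → (∀ n, (t n).length = (q n).length) →
    CSeq N w' P' (fun n => ms (a' ++ cc t n)) (fun n => ms (t n)) →
    (∀ n, PI M N ((cc q n).zip (cc t n) ++ a.zip a')) →
    (∀ n, FI M (a ++ cc q (n + 1)) (w (A n) \ (S n ∪ w (A (n + 1))))
        N (a' ++ cc t (n + 1))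
        (w' (ms (a' ++ cc t n)) \ (ms (t n) ∪ w' (ms (a' ++ cc t (n + 1)))))) →
    FI M a D N a' D'

/-! ### the class -/

/-- THN: a measurable invariant of tuples takes only countably many values. -/
def THN (C : Type) [MeasurableSpace C] : Prop :=
  ∀ X : Set (St C), MeasurableSet X → NoFam X →
    ∀ Θ : List ℕ → St C → ℕ → Bool, (∀ x, Measurable (Θ x)) →
    (∀ (h : Equiv.Perm ℕ), ∀ M ∈ X, ∀ N ∈ X, ∀ x : List ℕ, IsoH h M N →
      Θ x M = Θ (x.map h) N) →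
    {z | ∃ x, ∃ M ∈ X, Θ x M = z}.Countable

/-- the graph of a structure -/
def gr {C : Type} (M : St C) : SimpleGraph ℕ := SimpleGraph.fromRel (fun u v => M.1 u v = true)

/-- `G` contains a subdivision of the complete graph on `ℕ`. -/
def TopK (G : SimpleGraph ℕ) : Prop :=
  ∃ (b : ℕ → ℕ) (p : ∀ i j : ℕ, G.Walk (b i) (b j)), Function.Injective b ∧
    (∀ i j, i < j → (p i j).IsPath) ∧
    (∀ i j, i < j → ∀ k, b k ∈ (p i j).support → k = i ∨ k = j) ∧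
    ∀ i j k l, i < j → k < l → (i, j) ≠ (k, l) → ∀ v, v ∈ (p i j).support →
      v ∈ (p k l).support → ∃ m, v = b m

/-- TKS: an infinitely dominated direction gives a subdivision of the infinite complete graph. -/
def TKS (C : Type) (c0 : C) : Prop :=
  ∀ (M : St C), Valid c0 M → ¬ TopK (gr M) → NoInfDom M

/-- The Gaifman graph of a relational structure on `ℕ` (values in `C`, trivial value `c0`). -/
def Gaifman {C : Type} (c0 : C) (c : List ℕ → C) : SimpleGraph ℕ where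
  Adj u v := u ≠ v ∧ ∃ l : List ℕ, c l ≠ c0 ∧ u ∈ l ∧ v ∈ l
  symm := ⟨fun u v ⟨h, l, hl, hu, hv⟩ => ⟨h.symm, l, hl, hv, hu⟩⟩
  loopless := ⟨fun u h => h.1 rfl⟩

/-- isomorphism of relational structures -/
def RIso {C : Type} (c c' : List ℕ → C) : Prop :=
  ∃ h : Equiv.Perm ℕ, ∀ l : List ℕ, c l = c' (l.map h)

/-- MAIN: the theorem. -/
def MAIN (C : Type) (c0 : C) [MeasurableSpace C] : Prop :=
  ∀ X : Set (List ℕ → C), MeasurableSet X → (∀ c ∈ X, ∀ c', RIso c c' → c' ∈ X) →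
    (∃ f : (ℕ → Bool) → List ℕ → C, Measurable f ∧ (∀ x, f x ∈ X) ∧
      ∀ x x', x ≠ x' → ¬ RIso (f x) (f x')) ∨
    ∃ T : Set (List ℕ → C), T.Countable ∧ ∀ c ∈ X, ¬ TopK (Gaifman c0 c) → ∃ c' ∈ T, RIso c c'

/-- RED: the reduction of the theorem to graphs with values on cliques. -/
def RED (C : Type) (c0 : C) [MeasurableSpace C] : Prop :=
  (∀ X : Set (St C), MeasurableSet X → (∀ M ∈ X, Valid c0 M) →
    (∀ M ∈ X, ∀ N, Iso M N → N ∈ X) →
    Perf X ∨ ∃ T : Set (St C), T.Countable ∧ ∀ M ∈ X, ¬ TopK (gr M) → ∃ N ∈ T, Iso M N) →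
  MAIN C c0

end Pool.Agent.TK
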